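import Pool.Agent.P.MP_d483fb_an.Z.PS.Prod
import Pool.Agent.P.MP_d483fb_an.Z.LSB.Bridge
import Pool.Agent.P.MP_d483fb_an.Z.LSB.BoxEx

/-!
The product structure of leafwise measures on a leaf structure.
-/

open MeasureTheory

namespace Pool.Agent.P.MP_d483fb_an.Z

variable {X : Type} [MeasurableSpace X] [StandardBorelSpace X] {μ : Measure X}
  [IsProbabilityMeasure μ] {ι : Type} [Fintype ι] [DecidableEq ι]

theorem LS.hasPS (S : LS X μ ι) : S.toPre.HasPS :=
  PS.hasPS_of_box S fun _ _ hJ hc => by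
    obtain ⟨Z0, ρ, c, r0, η, σ, h⟩ := S.exists_boxPre hJ hc
    exact h.exists_box

end Pool.Agent.P.MP_d483fb_an.Z
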