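import Pool.Agent.P.MP_d483fb_an.Z.LS.Basic
import Pool.Agent.P.MP_d483fb_an.Z.LSB.BoxDefs
import Pool.Agent.P.MP_d483fb_an.Z.Erg.Return

/-!
The two coordinates on the atoms of a rectangle partition of a leaf structure.
-/

open scoped Matrix Matrix.Norms.Operator Topology
open MeasureTheory Filter Set ProbabilityTheory

noncomputable section

namespace Pool.Agent.P.MP_d483fb_an.Z.PS

variable {X : Type} [MeasurableSpace X] {μ : Measure X} {ι : Type} [Fintype ι] [DecidableEq ι]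

theorem measurable_norm' : Measurable fun A : Matrix ι ι ℝ => ‖A‖ :=
  have : Continuous fun A : ι → ι → ℝ => @norm (Matrix ι ι ℝ) _ A :=
    continuous_norm (E := Matrix ι ι ℝ)
  this.measurable

theorem dist_le_of_norm {A B : Matrix ι ι ℝ} {δ : ℝ} (h : ‖B - A‖ ≤ δ) :
    @dist (ι → ι → ℝ) _ A B ≤ δ := by
  have h0 := (norm_nonneg _).trans h
  refine (dist_pi_le_iff h0).2 fun i => (dist_pi_le_iff h0).2 fun j => ?_
  rw [dist_comm, Real.dist_eq]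
  exact (abs_entry_le (B - A) i j).trans h

theorem exists_small (w : Wt ι) {δ : ℝ} (hδ : 0 < δ) : ∃ r > 0, ∀ h : Matrix ι ι ℝ,
    w.Nil univ h → w.N h ≤ r → ‖h - 1‖ ≤ δ := by
  have h0 : 0 < δ / (Fintype.card ι + 1) := by positivity
  refine ⟨min 1 ((δ / (Fintype.card ι + 1)) ^ w.gi), by positivity, fun h hh hr => ?_⟩
  refine (hh.norm_sub_one_le le_rfl (hr.trans (min_le_left _ _))).trans ?_
  have h1 : w.N h ^ w.gi⁻¹ ≤ δ / (Fintype.card ι + 1) :=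
    (Real.rpow_inv_le_iff_of_pos (w.N_nonneg _) h0.le w.gi_pos).2 (hr.trans (min_le_right _ _))
  rw [Real.one_rpow, one_mul]
  refine (mul_le_mul_of_nonneg_left h1 (Nat.cast_nonneg _)).trans ?_
  rw [← mul_div_assoc, div_le_iff₀ (by positivity)]
  nlinarith

/-- The action of the flow in the charts, up to a small exponential rate. -/
theorem exists_scale (S : LS X μ ι) {ε κ : ℝ} (hε : 0 < ε) (hκ : 0 < κ) : ∃ q : X → ℝ,
    Measurable q ∧ (∀ x, 1 ≤ q x) ∧ ∀ x ∈ S.X0, ∀ (J : Set ℝ) (m : Matrix ι ι ℝ), S.w.Nil J m →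
      ∀ (s : ℝ × ℝ) (c u : ℝ), (∀ σ ∈ J, s.1 + s.2 * σ ≤ c) → ‖s‖ ≤ κ * u →
        S.w.N (S.L s x * m * (S.L s x)⁻¹) ≤ q x * Real.exp (c + ε * u) * S.w.N m := by
  have hC := S.w.C_pos
  obtain ⟨q, hq, -⟩ := S.temp (ε / (S.w.C * κ)) (by positivity)
  refine ⟨fun x => S.w.C * q x ^ S.w.C, (hq.meas.pow_const _).const_mul _, fun x =>
    one_le_mul_of_one_le_of_one_le S.w.one_le_C (Real.one_le_rpow (hq.one_le x) hC.le),
    fun x hx J m hm s c u hc hs => (hq.N_conj_le (by positivity) hx hm s hc).trans ?_⟩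
  rw [Real.mul_rpow (hq.pos x).le (Real.exp_pos _).le, ← Real.exp_mul, Real.exp_add]
  have h1 : ε / (S.w.C * κ) * ‖s‖ * S.w.C ≤ ε * u := by
    have : ε / (S.w.C * κ) * ‖s‖ * S.w.C = ε * (‖s‖ / κ) := by field_simp
    rw [this]
    exact mul_le_mul_of_nonneg_left ((div_le_iff₀' hκ).2 hs) hε.le
  have h2 := Real.exp_le_exp.2 h1
  have h3 := S.w.N_nonneg m
  have h4 : 0 ≤ q x ^ S.w.C := Real.rpow_nonneg (hq.pos x).le _
  calc _ = S.w.C * q x ^ S.w.C * (Real.exp c * Real.exp (ε / (S.w.C * κ) * ‖s‖ * S.w.C)) *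
        S.w.N m := by ring
    _ ≤ _ := by gcongr

variable (S : Pre X μ ι) (J : Set ℝ) (χ : ℝ) (K : Set X) (ζ : X → BoxLab X)

/-- A rectangle partition for the slopes in `J` and the extreme slope `χ`. -/
abbrev BoxJ (d : X → ℕ) (del : X → ℝ) (Y : Set X) : Prop :=
  Box μ S.aE S.X0 (S.RJ J) S.N (fun w y => S.w.pr χ (S.n w y)) (fun w y => S.w.al χ (S.n w y))
    K ζ d del Y

/-- The first coordinate. -/
def sC (x : X) : Matrix ι ι ℝ := S.w.pr χ (S.n (ζ x).1 x)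

/-- The second coordinate. -/
def aC (x : X) : Matrix ι ι ℝ := S.w.al χ (S.n (ζ x).1 x)

/-- The distortion of the gauge between the chart at a point and at its reference point. -/
def dis (x : X) : ℝ := S.w.C * (max 1 (max ‖S.l (ζ x).1 x‖ ‖S.l x (ζ x).1‖)) ^ S.w.C

theorem one_le_dis (x : X) : 1 ≤ dis S ζ x :=
  one_le_mul_of_one_le_of_one_le S.w.one_le_C (Real.one_le_rpow (le_max_left _ _) S.w.C_pos.le)

variable {S J χ K ζ} {d : X → ℕ} {del : X → ℝ} {Y : Set X} {x y : X}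

theorem measurable_sC (hζ : Measurable ζ) : Measurable (sC S χ ζ) :=
  Wt.measurable_pr.comp (Pre.measurable_n_comp hζ.fst measurable_id)

theorem measurable_aC (hζ : Measurable ζ) : Measurable (aC S χ ζ) :=
  Wt.measurable_al.comp (Pre.measurable_n_comp hζ.fst measurable_id)

theorem measurable_dis (hζ : Measurable ζ) : Measurable (dis S ζ) :=
  ((measurable_const.max ((measurable_norm'.comp (Pre.measurable_l_comp hζ.fst measurable_id)).max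
    (measurable_norm'.comp (Pre.measurable_l_comp measurable_id hζ.fst)))).pow_const _).const_mul _

theorem N_conj_dis {J' : Set ℝ} {h : Matrix ι ι ℝ} (hh : S.w.Nil J' h) (x : X) :
    S.w.N (S.l (ζ x).1 x * h * S.l x (ζ x).1) ≤ dis S ζ x * S.w.N h ∧
      S.w.N (S.l x (ζ x).1 * h * S.l (ζ x).1 x) ≤ dis S ζ x * S.w.N h :=
  ⟨hh.N_conj_le (S.l_lev _ _) (S.l_lev _ _) (le_max_left _ _)
      ((le_max_left _ _).trans (le_max_right _ _)) ((le_max_right _ _).trans (le_max_right _ _)),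
    hh.N_conj_le (S.l_lev _ _) (S.l_lev _ _) (le_max_left _ _)
      ((le_max_right _ _).trans (le_max_right _ _)) ((le_max_left _ _).trans (le_max_right _ _))⟩

namespace BoxJ

variable (hB : BoxJ S J χ K ζ d del Y) (hJ : J.OrdConnected) (hχ : Wt.Extreme J χ)
include hB

theorem refx (hx : x ∈ K) : S.RJ J (ζ x).1 x := (hB.ref x hx).2.1

theorem refy (hy : y ∈ K) (e : ζ x = ζ y) : S.RJ J (ζ x).1 y := e ▸ hB.refx hy

theorem N_sC (hx : x ∈ K) : S.w.N (sC S χ ζ x) ≤ 1 := (Wt.N_pr_le _).trans (hB.ref x hx).2.2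

theorem nil_sC (hx : x ∈ K) : S.w.Nil {χ} (sC S χ ζ x) := (hB.refx hx).2.pr

include hJ

theorem rel (hx : x ∈ K) (hy : y ∈ K) (e : ζ x = ζ y) : S.RJ J x y :=
  ((hB.refx hx).symm hJ).trans hJ (hB.refy hy e)

theorem N_le (hx : x ∈ K) (hy : y ∈ K) (e : ζ x = ζ y) : S.N x y ≤ S.w.C ^ 2 * dis S ζ x := by
  have h1 := (hB.refx hx).2
  have h2 := (hB.refy hy e).2
  have h3 : S.w.N ((S.n (ζ x).1 x)⁻¹ * S.n (ζ x).1 y) ≤ S.w.C * S.w.C :=
    (h1.inv hJ).N_mul_le h2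
      (h1.N_inv_le.trans (mul_le_of_le_one_right S.w.C_pos.le (hB.ref x hx).2.2))
      ((e ▸ (hB.ref y hy).2.2 : S.N (ζ x).1 y ≤ 1).trans S.w.one_le_C)
  rw [Pre.N, Pre.n_eq_conj (hB.refx hx).1 (hB.rel hJ hx hy e).1]
  refine (N_conj_dis ((h1.inv hJ).mul hJ h2) x).2.trans ?_
  rw [mul_comm, sq]
  exact mul_le_mul_of_nonneg_right h3 (zero_le_one.trans (one_le_dis S ζ x))

include hχ

theorem sC_eq (hx : x ∈ K) (hy : y ∈ K) (e : ζ x = ζ y) : sC S χ ζ y =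
    sC S χ ζ x * (S.l (ζ x).1 x * S.w.pr χ (S.n x y) * S.l x (ζ x).1) := by
  have h := hB.rel hJ hx hy e
  have h1 := hB.refx hx
  rw [sC, sC, ← e, Pre.n_trans h1.1 h.1, Wt.pr_chart hχ h1.2 (S.l_lev _ _) (Pre.isUnit_l h1.1) h.2,
    Pre.l_inv h1.1]

theorem aC_eq (hx : x ∈ K) (hy : y ∈ K) (e : ζ x = ζ y) : aC S χ ζ y =
    S.n (ζ x).1 x * (S.l (ζ x).1 x * S.w.al χ (S.n x y) * S.l x (ζ x).1) * (sC S χ ζ x)⁻¹ := by
  have h := hB.rel hJ hx hy e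
  have h1 := hB.refx hx
  rw [aC, sC, ← e, Pre.n_trans h1.1 h.1, Wt.al_chart hχ h1.2 (S.l_lev _ _) (Pre.isUnit_l h1.1) h.2,
    Pre.l_inv h1.1]

theorem sC_iff (hx : x ∈ K) (hy : y ∈ K) (e : ζ x = ζ y) :
    sC S χ ζ x = sC S χ ζ y ↔ S.RJ (J \ {χ}) x y := by
  rw [Pre.RJ_iff_chart (hB.refx hx).1 (hB.refy hy e).1, sC, sC, ← e,
    Wt.pr_eq_iff hχ hJ (hB.refx hx).2 (hB.refy hy e).2]

omit hJ in
theorem aC_iff (hx : x ∈ K) (hy : y ∈ K) (e : ζ x = ζ y) :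
    aC S χ ζ x = aC S χ ζ y ↔ S.RJ {χ} x y := by
  rw [Pre.RJ_iff_chart (hB.refx hx).1 (hB.refy hy e).1, aC, aC, ← e,
    Wt.al_eq_iff hχ (hB.refx hx).2 (hB.refy hy e).2]

theorem inv_sC_mul (hx : x ∈ K) (hy : y ∈ K) (e : ζ x = ζ y) : (sC S χ ζ x)⁻¹ * sC S χ ζ y =
    S.l (ζ x).1 x * S.w.pr χ (S.n x y) * S.l x (ζ x).1 := by
  rw [hB.sC_eq hJ hχ hx hy e, ← mul_assoc, (hB.nil_sC hx).inv_mul, one_mul]

theorem N_cell (hx : x ∈ K) (hy : y ∈ K) (e : ζ x = ζ y) :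
    S.w.N ((sC S χ ζ x)⁻¹ * sC S χ ζ y) ≤ dis S ζ x * S.w.N (S.w.pr χ (S.n x y)) ∧
      S.w.N (S.w.pr χ (S.n x y)) ≤ dis S ζ x * S.w.N ((sC S χ ζ x)⁻¹ * sC S χ ζ y) := by
  have h1 := (hB.refx hx).1
  refine ⟨hB.inv_sC_mul hJ hχ hx hy e ▸ (N_conj_dis (hB.rel hJ hx hy e).2.pr x).1, ?_⟩
  have h2 := (N_conj_dis (ζ := ζ) (((hB.nil_sC hx).inv ordConnected_singleton).mul
    ordConnected_singleton (hB.nil_sC hy)) x).2
  rwa [hB.inv_sC_mul hJ hχ hx hy e, ← mul_assoc, ← mul_assoc, Pre.l_mul_symm (S.R_symm _ _ h1),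
    one_mul, mul_assoc, Pre.l_mul_symm (S.R_symm _ _ h1), mul_one,
    ← hB.inv_sC_mul hJ hχ hx hy e] at h2

theorem mod_sC {δ : ℝ} (hδ : 0 < δ) (B : ℝ) : ∃ r > 0, ∀ x ∈ K, ∀ y ∈ K, ζ x = ζ y →
    dis S ζ x ≤ B → S.w.N (S.w.pr χ (S.n x y)) ≤ r → ‖sC S χ ζ y - sC S χ ζ x‖ ≤ δ := by
  have hA : 0 < S.w.C * (1 + 1) ^ S.w.C := mul_pos S.w.C_pos (by positivity)
  obtain ⟨r, hr, h⟩ := exists_small S.w (div_pos hδ hA)
  refine ⟨r / (|B| + 1), by positivity, fun x hx y hy e h1 h2 => ?_⟩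
  have h3 := (hB.rel hJ hx hy e).2.pr (χ := χ)
  have h4 : S.w.N (S.l (ζ x).1 x * S.w.pr χ (S.n x y) * S.l x (ζ x).1) ≤ r := by
    refine (N_conj_dis h3 x).1.trans ((mul_le_mul (h1.trans ((le_abs_self B).trans
      (le_add_of_nonneg_right zero_le_one))) h2 (S.w.N_nonneg _) (by positivity)).trans ?_)
    rw [mul_div_cancel₀ _ (by positivity)]
  have h5 := h _ (h3.univ.conj (S.l_lev _ _) (S.l_lev _ _) (Pre.l_mul_symm (hB.refx hx).1)) h4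
  rw [hB.sC_eq hJ hχ hx hy e, ← mul_sub_one]
  refine (norm_mul_le _ _).trans ((mul_le_mul ((hB.nil_sC hx).norm_le (hB.N_sC hx)) h5
    (norm_nonneg _) hA.le).trans ?_)
  rw [mul_div_cancel₀ _ hA.ne']

theorem mod_aC {δ : ℝ} (hδ : 0 < δ) (B : ℝ) : ∃ r > 0, ∀ x ∈ K, ∀ y ∈ K, ζ x = ζ y →
    dis S ζ x ≤ B → S.w.N (S.w.al χ (S.n x y)) ≤ r → ‖aC S χ ζ y - aC S χ ζ x‖ ≤ δ := by
  have hC := S.w.C_pos
  have hA : 0 < S.w.C * (1 + 1) ^ S.w.C := by positivity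
  have hA' : 0 < S.w.C * (1 + S.w.C) ^ S.w.C := by positivity
  obtain ⟨r, hr, h⟩ := exists_small S.w (div_pos hδ (mul_pos hA hA'))
  refine ⟨r / (|B| + 1), by positivity, fun x hx y hy e h1 h2 => ?_⟩
  have h3 := (hB.rel hJ hx hy e).2.al_univ (χ := χ)
  have h4 : S.w.N (S.l (ζ x).1 x * S.w.al χ (S.n x y) * S.l x (ζ x).1) ≤ r := by
    refine (N_conj_dis h3 x).1.trans ((mul_le_mul (h1.trans ((le_abs_self B).trans
      (le_add_of_nonneg_right zero_le_one))) h2 (S.w.N_nonneg _) (by positivity)).trans ?_)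
    rw [mul_div_cancel₀ _ (by positivity)]
  have h5 := h _ (h3.conj (S.l_lev _ _) (S.l_lev _ _) (Pre.l_mul_symm (hB.refx hx).1)) h4
  have h6 : ‖(sC S χ ζ x)⁻¹‖ ≤ S.w.C * (1 + S.w.C) ^ S.w.C :=
    ((hB.nil_sC hx).inv ordConnected_singleton).norm_le
      ((hB.nil_sC hx).N_inv_le.trans (mul_le_of_le_one_right hC.le (hB.N_sC hx)))
  have h7 : aC S χ ζ x = S.n (ζ x).1 x * (sC S χ ζ x)⁻¹ := rfl
  rw [hB.aC_eq hJ hχ hx hy e, h7, ← sub_mul, ← mul_sub_one]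
  refine (norm_mul_le _ _).trans ((mul_le_mul ((norm_mul_le _ _).trans
    (mul_le_mul ((hB.refx hx).2.norm_le (hB.ref x hx).2.2) h5 (norm_nonneg _) hA.le)) h6
    (norm_nonneg _) (by positivity)).trans (le_of_eq ?_))
  field_simp

end BoxJ

end Pool.Agent.P.MP_d483fb_an.Z.PS
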