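import Pool.Agent.P.MP_d483fb_an.Z.PS.Rate

/-!
Good sets of large measure on which equal labels force small gauges.
-/

namespace Pool.Agent.P.MP_d483fb_an.Z.PS

open MeasureTheory Filter Set Topology ProbabilityTheory
open scoped ENNReal

variable {X Z D W V : Type} [MeasurableSpace X] {μ : Measure X} {K : Set X} {T Ti : X → X}
  {ζ : X → Z} {d : X → D}

theorem eventually_mul_exp_lt (A : ℝ) {r : ℝ} (hr : 0 < r) {u : ℕ → ℝ}
    (hu : Tendsto u atTop atTop) : ∀ᶠ n in atTop, A * Real.exp (-u n) < r := by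
  have h := (Real.tendsto_exp_neg_atTop_nhds_zero.comp hu).const_mul A
  rw [mul_zero] at h
  exact h.eventually (gt_mem_nhds hr)

namespace Rate

variable (ρ : Rate μ K T Ti ζ d)

/-- The points of `K` which are sent to `K` by `β^[M]`. -/
def KM (M : ℕ) : Set X := K ∩ ρ.β^[M] ⁻¹' K

theorem mKM (M : ℕ) : MeasurableSet (ρ.KM M) := ρ.mK.inter ((ρ.pβ.iterate M).measurable ρ.mK)

theorem cond_pull (M : ℕ) {S : Set X} (hS : MeasurableSet S) :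
    μ[|K] (ρ.KM M ∩ ρ.β^[M] ⁻¹' S) ≤ μ[|K] S := by
  rw [cond_apply ρ.mK, cond_apply ρ.mK,
    ← (ρ.pβ.iterate M).measure_preimage (ρ.mK.inter hS).nullMeasurableSet]
  refine mul_le_mul_right (measure_mono ?_) _
  exact fun x hx => ⟨hx.2.1.2, hx.2.2⟩

/-- The points with controlled distortion at the time `k` and typical return times. -/
def GoodA (F : X → ℝ) (B γ : ℝ) (n k : ℕ) : Set X :=
  {x | x ∈ ρ.Y ∧ F x ≤ B ∧ F (T^[k] x) ≤ B ∧ |ρ.t n x / n - ρ.θ| < γ * ρ.θ}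

/-- The points of `GoodA` with controlled distortion after `β^[M]` and in the past. -/
def GoodB (F : X → ℝ) (B γ : ℝ) (n k M m : ℕ) : Set X :=
  {x | x ∈ ρ.GoodA F B γ n k ∧ x ∈ ρ.Xb ∧ ρ.β^[M] x ∈ ρ.Y ∧ F (ρ.β^[M] x) ≤ B ∧ F (Ti^[m] x) ≤ B}

variable {F : X → ℝ}

theorem mGoodA (hF : Measurable F) (B γ : ℝ) (n k : ℕ) : MeasurableSet (ρ.GoodA F B γ n k) :=
  ρ.mY.inter <| (measurableSet_le hF measurable_const).inter <|
    (measurableSet_le (hF.comp (ρ.pT.iterate k).measurable) measurable_const).inter <|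
      measurableSet_lt (((ρ.mt n).div_const _).sub_const _).abs measurable_const

theorem mGoodB (hF : Measurable F) (B γ : ℝ) (n k M m : ℕ) :
    MeasurableSet (ρ.GoodB F B γ n k M m) :=
  (ρ.mGoodA hF B γ n k).inter <| ρ.mXb.inter <| ((ρ.pβ.iterate M).measurable ρ.mY).inter <|
    (measurableSet_le (hF.comp (ρ.pβ.iterate M).measurable) measurable_const).inter <|
      measurableSet_le (hF.comp (ρ.pTi.iterate m).measurable) measurable_const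

variable [IsProbabilityMeasure μ]

omit [IsProbabilityMeasure μ] in
theorem goodA_bound (hF : Measurable F) (B γ : ℝ) (n k : ℕ) :
    (μ[|K]).real (ρ.GoodA F B γ n k)ᶜ ≤ 2 * (μ[|K]).real {x | B < F x} +
      (μ[|K]).real {x | γ * ρ.θ ≤ |ρ.t n x / n - ρ.θ|} := by
  have hm : MeasurableSet {x | B < F x} := measurableSet_lt measurable_const hF
  have h1 : (μ[|K]).real (ρ.GoodA F B γ n k)ᶜ ≤ (μ[|K]).real (({x | B < F x} ∪
      T^[k] ⁻¹' {x | B < F x}) ∪ {x | γ * ρ.θ ≤ |ρ.t n x / n - ρ.θ|}) := by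
    refine ENNReal.toReal_mono (measure_ne_top _ _) (measure_mono_ae ?_)
    filter_upwards [ρ.aeY] with x hx h
    by_contra hc
    have c1 := not_or.1 hc
    have c2 := not_or.1 c1.1
    exact h ⟨hx, not_lt.1 c2.1, not_lt.1 c2.2, not_le.1 c1.2⟩
  have h2 := (ρ.pT.iterate k).measureReal_preimage hm.nullMeasurableSet
  have h3 := measureReal_union_le (μ := μ[|K]) {x | B < F x} (T^[k] ⁻¹' {x | B < F x})
  linarith [measureReal_union_le (μ := μ[|K]) ({x | B < F x} ∪ T^[k] ⁻¹' {x | B < F x})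
    {x | γ * ρ.θ ≤ |ρ.t n x / n - ρ.θ|}]

theorem goodB_bound (hF : Measurable F) (B γ : ℝ) (n k M m : ℕ) :
    (μ[|K]).real (ρ.KM M \ ρ.GoodB F B γ n k M m) ≤ 4 * (μ[|K]).real {x | B < F x} +
      (μ[|K]).real {x | γ * ρ.θ ≤ |ρ.t n x / n - ρ.θ|} := by
  have hm : MeasurableSet {x | B < F x} := measurableSet_lt measurable_const hF
  have h0 : ∀ᵐ x ∂μ[|K], x ∉ ρ.KM M ∩ ρ.β^[M] ⁻¹' ρ.Yᶜ :=
    measure_eq_zero_iff_ae_notMem.1
      (le_zero_iff.1 ((ρ.cond_pull M ρ.mY.compl).trans_eq (ae_iff.1 ρ.aeY)))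
  have h1 : (μ[|K]).real (ρ.KM M \ ρ.GoodB F B γ n k M m) ≤ (μ[|K]).real
      (((ρ.GoodA F B γ n k)ᶜ ∪ ρ.KM M ∩ ρ.β^[M] ⁻¹' {x | B < F x}) ∪
        Ti^[m] ⁻¹' {x | B < F x}) := by
    refine ENNReal.toReal_mono (measure_ne_top _ _) (measure_mono_ae ?_)
    filter_upwards [h0, (cond_absolutelyContinuous (μ := μ) (s := K)).ae_le ρ.aeXb]
      with x hx hb h
    by_contra hc
    have c1 := not_or.1 hc
    have c2 := not_or.1 c1.1
    refine h.2 ⟨not_not.1 c2.1, hb, ?_, not_lt.1 fun h' => c2.2 ⟨h.1, h'⟩, not_lt.1 c1.2⟩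
    by_contra h'
    exact hx ⟨h.1, h'⟩
  have h2 := (ρ.pTi.iterate m).measureReal_preimage hm.nullMeasurableSet
  have h3 := measureReal_union_le (μ := μ[|K]) (ρ.GoodA F B γ n k)ᶜ
    (ρ.KM M ∩ ρ.β^[M] ⁻¹' {x | B < F x})
  have h4 : (μ[|K]).real (ρ.KM M ∩ ρ.β^[M] ⁻¹' {x | B < F x}) ≤ (μ[|K]).real {x | B < F x} :=
    ENNReal.toReal_mono (measure_ne_top _ _) (ρ.cond_pull M hm)
  linarith [measureReal_union_le (μ := μ[|K])
    ((ρ.GoodA F B γ n k)ᶜ ∪ ρ.KM M ∩ ρ.β^[M] ⁻¹' {x | B < F x}) (Ti^[m] ⁻¹' {x | B < F x}),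
    ρ.goodA_bound hF B γ n k]

theorem exists_good (hF : Measurable F) {γ η : ℝ} (hγ : 0 < γ) (hη : 0 < η) : ∃ B : ℝ, 1 ≤ B ∧
    ∀ᶠ n in atTop, ∀ k, (μ[|K]).real (ρ.GoodA F B γ n k)ᶜ ≤ η ∧
      ∀ M m, (μ[|K]).real (ρ.KM M \ ρ.GoodB F B γ n k M m) ≤ η := by
  obtain ⟨B, hB, h⟩ := exists_bound μ[|K] hF (η := η / 5) (by positivity)
  refine ⟨B, hB, ?_⟩
  filter_upwards [eventually_near μ[|K] (f := fun n x => ρ.t n x / n)
    (fun n => (ρ.mt n).div_const _) (mul_pos hγ ρ.θ0) (η := η / 5) (by positivity) ρ.lln]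
    with n hn k
  exact ⟨by linarith [ρ.goodA_bound hF B γ n k],
    fun M m => by linarith [ρ.goodB_bound hF B γ n k M m]⟩

omit [IsProbabilityMeasure μ] in
theorem GoodA.t_le {B γ : ℝ} {n k : ℕ} {x : X} (hx : x ∈ ρ.GoodA F B γ n k) (hn : 0 < n) :
    (1 - γ) * ρ.θ * n ≤ ρ.t n x ∧ ∀ i ≤ n, ρ.t i x ≤ (1 + γ) * ρ.θ * n := by
  have h0 : (0 : ℝ) < n := Nat.cast_pos.2 hn
  obtain ⟨h1, h2⟩ := abs_lt.1 hx.2.2.2
  refine ⟨?_, fun i hi => (ρ.tmono x hx.1 hi).trans ?_⟩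
  · rw [← le_div_iff₀ h0]
    linarith
  · rw [← div_le_iff₀ h0]
    linarith

variable {ρ} [PseudoMetricSpace W] [PseudoMetricSpace V] {s : X → W} {al : X → V} {ε : ℝ}

/-- Points with the same cell at the scale `exp (-(1 + 3 γ) θ n)` have close `s` along names. -/
theorem Ctl.nearA (h : ρ.Ctl s al ε F) (hε : 0 ≤ ε) {γ : ℝ} (hγ : 0 < γ) (h1 : ε ≤ γ)
    (h2 : γ ≤ 1 / 2) {δ η : ℝ} (hδ : 0 < δ) (hη : 0 < η) : ∀ᶠ n : ℕ in atTop, ∀ k < n,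
      ∃ G, MeasurableSet G ∧ (μ[|K]).real Gᶜ ≤ η ∧ ∀ x ∈ G, ∀ y ∈ G, ζ x = ζ y →
        ρ.sig (Real.exp (-((1 + 3 * γ) * ρ.θ * n))) x =
          ρ.sig (Real.exp (-((1 + 3 * γ) * ρ.θ * n))) y →
        (∀ i < k, d (T^[i] x) = d (T^[i] y)) →
        ζ (T^[k] x) = ζ (T^[k] y) ∧ dist (s (T^[k] x)) (s (T^[k] y)) ≤ δ := by
  obtain ⟨B, hB, hg⟩ := ρ.exists_good h.meas hγ hη
  obtain ⟨r, hr, hs⟩ := h.modS δ hδ B
  have hθ := ρ.θ0
  have hu : Tendsto (fun n : ℕ => γ / 2 * ρ.θ * n) atTop atTop :=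
    tendsto_natCast_atTop_atTop.const_mul_atTop (by positivity)
  filter_upwards [hg, eventually_mul_exp_lt (B * B) hr hu] with n g1 g2 k hk
  refine ⟨_, ρ.mGoodA h.meas B γ n k, (g1 k).1, fun x hx y hy hz hc hd => ?_⟩
  have hz' := (ρ.zeta_iter hx.1 hy.1 k).2 ⟨hz, hd⟩
  refine ⟨hz', hs _ (ρ.T_mem hx.1 k) _ (ρ.T_mem hy.1 k) hz' hx.2.2.1 ?_⟩
  refine (h.estA hε hx.1 hy.1 (Real.exp_pos _) hz hc hd hx.2.1
    ((GoodA.t_le ρ hx (by omega)).2 k hk.le)).trans (le_trans ?_ g2.le)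
  have e : ∀ a b : ℝ, B * Real.exp a * (B * Real.exp b) = B * B * Real.exp (a + b) := fun a b => by
    rw [Real.exp_add]; ring
  rw [e]
  refine mul_le_mul_of_nonneg_left (Real.exp_le_exp.2 ?_) (by positivity)
  have a1 : 0 ≤ ρ.θ * n := by positivity
  have a2 : (1 + ε) * (1 + γ) ≤ 1 + 5 / 2 * γ := by nlinarith
  nlinarith

omit [IsProbabilityMeasure μ] in
theorem small_past {M m : ℕ → ℕ} (hm : Tendsto m atTop atTop)
    (hM : ∀ n, ε * M n ≤ m n / 4) (B : ℝ) (hB : 1 ≤ B) : ∀ᶠ n in atTop,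
      B * (B * Real.exp (-(m n / 2)) * (B * Real.exp (ε * M n) * B)) < 1 := by
  have hu : Tendsto (fun n : ℕ => (m n : ℝ) / 4) atTop atTop :=
    (tendsto_natCast_atTop_atTop.comp hm).atTop_div_const (by norm_num)
  filter_upwards [eventually_mul_exp_lt (B ^ 4) one_pos hu] with n hn
  refine lt_of_le_of_lt ?_ hn
  have e : ∀ a b : ℝ, B * (B * Real.exp a * (B * Real.exp b * B)) = B ^ 4 * Real.exp (a + b) :=
    fun a b => by rw [Real.exp_add]; ring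
  rw [e]
  exact mul_le_mul_of_nonneg_left (Real.exp_le_exp.2 (by linarith [hM n])) (by positivity)

/-- Points with the same label after `β^[M]` and the same past have close `al` along names. -/
theorem Ctl.nearB (h : ρ.Ctl s al ε F) (hε : 0 ≤ ε) (h1 : ε ≤ 1 / 2) {M m : ℕ → ℕ}
    (hm : Tendsto m atTop atTop) (hM : ∀ n, ε * M n ≤ m n / 4)
    (hM' : ∀ᶠ n : ℕ in atTop, (4 * ρ.θ + 1) * n ≤ (ρ.c - ε) * M n) {δ η : ℝ} (hδ : 0 < δ)
    (hη : 0 < η) : ∀ᶠ n : ℕ in atTop, ∀ k < n,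
      ∃ G, MeasurableSet G ∧ (μ[|K]).real (ρ.KM (M n) \ G) ≤ η ∧ ∀ x ∈ G, ∀ y ∈ G,
        ζ (ρ.β^[M n] x) = ζ (ρ.β^[M n] y) →
        (∀ i < m n, d (T^[i] (Ti^[m n] x)) = d (T^[i] (Ti^[m n] y))) →
        (∀ i < k, d (T^[i] x) = d (T^[i] y)) →
        ζ (T^[k] x) = ζ (T^[k] y) ∧ dist (al (T^[k] x)) (al (T^[k] y)) ≤ δ := by
  obtain ⟨B, hB, hg⟩ := ρ.exists_good h.meas one_pos hη
  obtain ⟨r, hr, hs⟩ := h.modA δ hδ B
  have hθ := ρ.θ0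
  filter_upwards [hg, eventually_mul_exp_lt (B ^ 3) hr tendsto_natCast_atTop_atTop,
    small_past hm hM B hB, hM'] with n g1 g2 g3 g4 k hk
  refine ⟨_, ρ.mGoodB h.meas B 1 n k (M n) (m n), (g1 k).2 _ _, fun x hx y hy hz hp hd => ?_⟩
  obtain ⟨a1, a2⟩ := h.estB h1 hx.1.1 hy.1.1 hx.2.1 hy.2.1 hx.2.2.1 hy.2.2.1 hz hp hx.1.2.1
    hx.2.2.2.1 hx.2.2.2.2 g3
  have hz' := (ρ.zeta_iter hx.1.1 hy.1.1 k).2 ⟨a1, hd⟩
  refine ⟨hz', hs _ (ρ.T_mem hx.1.1 k) _ (ρ.T_mem hy.1.1 k) hz' hx.1.2.2.1 ?_⟩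
  refine (h.estB' hε hx.1.1 hy.1.1 a1 hd hx.1.2.1
    ((GoodA.t_le ρ hx.1 (by omega)).2 k hk.le) a2).trans (le_trans ?_ g2.le)
  have e : ∀ a b : ℝ, B * Real.exp a * (B * Real.exp b * B) = B ^ 3 * Real.exp (a + b) :=
    fun a b => by rw [Real.exp_add]; ring
  rw [e]
  refine mul_le_mul_of_nonneg_left (Real.exp_le_exp.2 ?_) (by positivity)
  have a3 : 0 ≤ ρ.θ * n := by positivity
  nlinarith

/-- Points with the same label after `β^[M]`, the same past and the same names have boundedly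
many cells after `β^[M]`. -/
theorem Ctl.countC (h : ρ.Ctl s al ε F) (h1 : ε ≤ 1 / 2) {γ : ℝ} (hγ : 0 < γ) {n M m : ℕ → ℕ}
    {u : ℕ → ℝ} (hn : Tendsto n atTop atTop) (hm : Tendsto m atTop atTop)
    (hM : ∀ j, ε * M j ≤ m j / 4)
    (hu : Tendsto (fun j => (1 - ε) * ((1 - γ) * ρ.θ * n j) - ε * M j - u j) atTop atTop)
    {η : ℝ} (hη : 0 < η) : ∀ᶠ j : ℕ in atTop,
      ∃ G, MeasurableSet G ∧ (μ[|K]).real (ρ.KM (M j) \ G) ≤ η ∧ ∀ x ∈ G,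
        ((fun y => ρ.sig (Real.exp (-u j)) (ρ.β^[M j] y)) '' {y | y ∈ G ∧
          ζ (ρ.β^[M j] x) = ζ (ρ.β^[M j] y) ∧
          (∀ i < m j, d (T^[i] (Ti^[m j] x)) = d (T^[i] (Ti^[m j] y))) ∧
          ∀ i < n j, d (T^[i] x) = d (T^[i] y)}).encard ≤ ρ.C0 := by
  obtain ⟨B, hB, hg⟩ := ρ.exists_good h.meas hγ hη
  filter_upwards [hn.eventually hg, eventually_mul_exp_lt (B ^ 4) one_pos hu,
    small_past hm hM B hB, hn.eventually (eventually_gt_atTop 0)] with j g1 g2 g3 g4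
  refine ⟨_, ρ.mGoodB h.meas B γ (n j) (n j) (M j) (m j), (g1 _).2 _ _, fun x hx => ?_⟩
  refine le_trans (encard_le_encard ?_) (h.cellB _ (Real.exp_pos (-u j)) _ hx.2.2.1)
  rintro _ ⟨y, ⟨hy, hz, hp, hd⟩, rfl⟩
  refine ⟨_, ⟨hy.2.2.1, hz, ?_⟩, rfl⟩
  have a1 := (h.estB h1 hx.1.1 hy.1.1 hx.2.1 hy.2.1 hx.2.2.1 hy.2.2.1 hz hp hx.1.2.1
    hx.2.2.2.1 hx.2.2.2.2 g3).1
  refine (h.estC (by linarith) hx.1.1 hy.1.1 hx.2.1 hy.2.1 hx.2.2.1 hy.2.2.1 hz a1 hd hx.1.2.1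
    hx.2.2.2.1 hx.1.2.2.1 (GoodA.t_le ρ hx.1 g4).1).trans ?_
  have e : ∀ a b c : ℝ, B * (B * Real.exp a * (B * Real.exp b * B)) =
      B ^ 4 * Real.exp (a + b + c) * Real.exp (-c) := fun a b c => by
    rw [mul_assoc (B ^ 4), ← Real.exp_add, add_neg_cancel_right, Real.exp_add]; ring
  rw [e _ _ (u j)]
  refine mul_le_of_le_one_left (Real.exp_pos _).le (le_trans (le_of_eq ?_) g2.le)
  congr 2
  ring

end Rate

end Pool.Agent.P.MP_d483fb_an.Z.PS
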