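import Pool.Agent.P.MP_d483fb_an.Z.PS.Lower
import Pool.Agent.P.MP_d483fb_an.Z.Ent.E11

/-!
The rate inequality between the three conditional entropies.
-/

namespace Pool.Agent.P.MP_d483fb_an.Z.PS

open MeasureTheory Filter Set Topology ProbabilityTheory Ent
open scoped ENNReal

theorem final_contra {u c1 e η hA g n I v : ℝ} (hc1 : 0 < c1) (hc : c1 ≤ 1) (hu : c1 ≤ u)
    (hg : 0 < g) (hA0 : 0 ≤ hA) (he : e = c1 * g / 8) (hη : 5 * η * (hA + g) = e) (hn : 0 < n)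
    (h1 : n * (hA + g - 2 * e) * v ≤ I) (h2 : u - 5 * η ≤ v) (h3 : I ≤ n * (u * hA + e)) :
    False := by
  have e0 : 0 < e := by rw [he]; positivity
  have e1 : e ≤ g / 8 := by rw [he]; nlinarith
  have η0 : 0 ≤ η := by
    by_contra h
    nlinarith
  have h4 : (hA + g - 2 * e) * v ≤ u * hA + e := by
    rw [mul_assoc] at h1
    exact le_of_mul_le_mul_left (h1.trans h3) hn
  have h5 : (hA + g - 2 * e) * (u - 5 * η) ≤ u * hA + e :=
    (mul_le_mul_of_nonneg_left h2 (by linarith)).trans h4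
  have h6 : c1 * (3 / 4 * g) ≤ u * (g - 2 * e) := mul_le_mul hu (by linarith) (by positivity)
    (by linarith)
  nlinarith [mul_nonneg η0 e0.le]

theorem final_aux {p m a e h t l : ℝ} (hm : 0 < m) (ha : 0 ≤ e) (h1 : a + h + 1 < p * e)
    (h2 : 2 * t + l ≤ m) : (p + 1) * m * (a - 2 * e) ≤ p * m * (a - e) - m * h - 2 * t - l := by
  nlinarith [mul_lt_mul_of_pos_left h1 hm, mul_nonneg hm.le ha]

variable {X Z D W V : Type} [MeasurableSpace X] [StandardBorelSpace X] [Nonempty X]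
  [MeasurableSpace Z] [StandardBorelSpace Z]
  [MeasurableSpace D] [Countable D] [MeasurableSingletonClass D]
  [MetricSpace W] [PolishSpace W] [MeasurableSpace W] [BorelSpace W]
  [MetricSpace V] [PolishSpace V] [MeasurableSpace V] [BorelSpace V]
  {μ : Measure X} [IsProbabilityMeasure μ] {K : Set X} {T Ti : X → X} {ζ : X → Z} {d : X → D}
  {s : X → W} {al : X → V}

namespace Rate

variable (ρ : Rate μ K T Ti ζ d)

omit [StandardBorelSpace X] [Nonempty X] [MeasurableSpace Z] [StandardBorelSpace Z] [Countable D]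
  [MeasurableSpace D] [MeasurableSingletonClass D] [IsProbabilityMeasure μ] in
include ρ in
theorem isIncr : Incr μ[|K] T ζ d :=
  ⟨⟨ρ.Y, ρ.aeY, fun x hx y hy h => Prod.ext ((ρ.incr x hx y hy).1 h).1 ((ρ.incr x hx y hy).1 h).2⟩,
    ⟨ρ.Y, ρ.aeY, fun x hx y hy h =>
      (ρ.incr x hx y hy).2 ⟨congrArg Prod.fst h, congrArg Prod.snd h⟩⟩⟩

variable {ρ}

omit [PolishSpace V] [MeasurableSpace V] [BorelSpace V] in
theorem Ctl.stepA {ε γ : ℝ} {F : X → ℝ} (h : ρ.Ctl s al ε F) (hT : Ergodic T μ[|K])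
    (hζ : Measurable ζ) (hd : Measurable d) (hs : Measurable s) (hH : FinEnt μ[|K] d)
    (iS : Incr μ[|K] T (pr2 ζ s) d)
    (hsig : ∀ r, ∀ x ∈ ρ.Y, ∀ y ∈ ρ.Y, ζ x = ζ y → s x = s y → ρ.sig r x = ρ.sig r y)
    (hε : 0 ≤ ε) (hγ : 0 < γ) (h1 : ε ≤ γ) (h2 : γ ≤ 1 / 2) {e : ℝ} (he : 0 < e) :
    Tendsto (fun n : ℕ => (μ[|K]).real {x | Ic μ[|K]
      (ρ.sig (Real.exp (-((1 + 3 * γ) * ρ.θ * n)))) ζ x <
        n * (Hc μ[|K] d ζ - Hc μ[|K] d (pr2 ζ s) - e)}) atTop (𝓝 0) := by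
  have := cond_isProbabilityMeasure (μ := μ) ρ.K0
  let _ := upgradeStandardBorel Z
  refine digit_lower (E := fun _ => ℕ) hT hd hH hζ (hζ.prodMk hs) ρ.isIncr iS (Det.fst _ _)
    lusin_pair (fun n => ρ.msig _) (fun n => ⟨ρ.Y, ρ.aeY, fun x hx y hy e =>
      hsig _ x hx y hy (congrArg Prod.fst e) (congrArg Prod.snd e)⟩) (fun δ hδ η hη => ⟨0, ?_⟩) he
  filter_upwards [h.nearA hε hγ h1 h2 hδ hη] with n hn k _ hk
  obtain ⟨G, g1, g2, g3⟩ := hn k hk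
  exact ⟨G, g1, by rwa [← compl_eq_univ_sdiff], fun y hy y' hy' e hd =>
    g3 y hy.1 y' hy'.1 (congrArg Prod.fst e) (congrArg Prod.snd e) hd⟩

omit [PolishSpace W] [MeasurableSpace W] [BorelSpace W] in
theorem Ctl.stepB {ε : ℝ} {F : X → ℝ} (h : ρ.Ctl s al ε F) (hT : Ergodic T μ[|K])
    (hζ : Measurable ζ) (hd : Measurable d) (hal : Measurable al) (hH : FinEnt μ[|K] d)
    (hε : 0 ≤ ε) (h1 : ε ≤ 1 / 2) {M m : ℕ → ℕ} (hm : Tendsto m atTop atTop)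
    (hM : ∀ n, ε * M n ≤ m n / 4)
    (hM' : ∀ᶠ n : ℕ in atTop, (4 * ρ.θ + 1) * n ≤ (ρ.c - ε) * M n) {e : ℝ} (he : 0 < e) :
    ∀ᶠ n : ℕ in atTop, ∫ x in ρ.KM (M n), Ic μ[|K] (names T d n) (ρ.lab (M n) (m n)) x ∂μ[|K] ≤
      n * ((μ[|K]).real (ρ.KM (M n)) * Hc μ[|K] d (pr2 ζ al) + e) := by
  have := cond_isProbabilityMeasure (μ := μ) ρ.K0
  let _ := upgradeStandardBorel Z
  refine names_upper hT hd hH (hζ.prodMk hal) lusin_pair (fun n => ρ.mlab hζ hd (M n) (m n))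
    (fun n => ρ.mKM _) (fun n => ρ.sat_lab _ _ _) (fun δ hδ η hη => ⟨0, ?_⟩) he
  filter_upwards [h.nearB hε h1 hm hM hM' hδ hη] with n hn k _ hk
  obtain ⟨G, g1, g2, g3⟩ := hn k hk
  exact ⟨G, g1, g2, fun y hy y' hy' e hd =>
    g3 y hy.1 y' hy'.1 (ρ.lab_eq e).1 (ρ.lab_eq e).2 hd⟩

variable (ρ)

/-- The rate inequality. -/
theorem ineq (hC : ∀ ε > 0, ∃ F, ρ.Ctl s al ε F) (hT : Ergodic T μ[|K])
    (hζ : Measurable ζ) (hd : Measurable d) (hs : Measurable s) (hal : Measurable al)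
    (hH : FinEnt μ[|K] d) (iS : Incr μ[|K] T (pr2 ζ s) d)
    (hsig : ∀ r, ∀ x ∈ ρ.Y, ∀ y ∈ ρ.Y, ζ x = ζ y → s x = s y → ρ.sig r x = ρ.sig r y) :
    Hc μ[|K] d ζ ≤ Hc μ[|K] d (pr2 ζ s) + Hc μ[|K] d (pr2 ζ al) := by
  have := cond_isProbabilityMeasure (μ := μ) ρ.K0
  by_contra hcon
  set hA := Hc μ[|K] d (pr2 ζ al) with hAe
  obtain ⟨g, hg⟩ : ∃ g, g = Hc μ[|K] d ζ - Hc μ[|K] d (pr2 ζ s) - hA := ⟨_, rfl⟩
  have g0 : 0 < g := by linarith [not_le.1 hcon]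
  have hA0 : 0 ≤ hA := Hc_nonneg
  obtain ⟨J, c1, hc1, hJ⟩ := exists_shift_inter μ ρ.mK ρ.K0
  have hJ' := hJ ρ.β ρ.pβ
  have c11 : c1 ≤ 1 := by
    obtain ⟨M, -, -, h⟩ := hJ' 0
    exact h.trans measureReal_le_one
  obtain ⟨e, he⟩ : ∃ e, e = c1 * g / 8 := ⟨_, rfl⟩
  have e0 : 0 < e := by rw [he]; positivity
  obtain ⟨η, hη⟩ : ∃ η, η = e / (5 * (hA + g)) := ⟨_, rfl⟩
  have η0 : 0 < η := by rw [hη]; positivity
  obtain ⟨p, hp⟩ := exists_nat_gt (max 1 ((hA + g + (H0 μ[|K] d + 1) / η + 1) / e))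
  have p1 : (1 : ℝ) < p := (le_max_left _ _).trans_lt hp
  have p2 : hA + g + (H0 μ[|K] d + 1) / η + 1 < p * e :=
    (div_lt_iff₀ e0).1 ((le_max_right _ _).trans_lt hp)
  obtain ⟨γ, hγ⟩ : ∃ γ : ℝ, γ = 1 / (10 * (p + 1)) := ⟨_, rfl⟩
  have γ0 : 0 < γ := by rw [hγ]; positivity
  have γ1 : γ * (p + 1) = 1 / 10 := by rw [hγ]; field_simp
  have γ2 : γ ≤ 1 / 2 := by nlinarith
  have θ0 := ρ.θ0
  have c0 := ρ.c0
  obtain ⟨Q, hQ⟩ := exists_nat_gt ((4 * ρ.θ + 1) * (2 * (p + 1)) / (ρ.c / 2))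
  rw [div_lt_iff₀ (by positivity)] at hQ
  obtain ⟨ε, ε0, ε1, ε2, ε3⟩ : ∃ ε : ℝ, 0 < ε ∧ ε ≤ γ ∧ ε ≤ ρ.c / 2 ∧
      ε * (J * Q) ≤ min (1 / 4) (γ * ρ.θ) := by
    have h0 : 0 < min (1 / 4) (γ * ρ.θ) := by positivity
    refine ⟨min (min γ (ρ.c / 2)) (min (1 / 4) (γ * ρ.θ) / (J * Q + 1)), by positivity,
      (min_le_left _ _).trans (min_le_left _ _), (min_le_left _ _).trans (min_le_right _ _),
      (mul_le_mul_of_nonneg_right (min_le_right _ _) (by positivity)).trans ?_⟩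
    rw [div_mul_eq_mul_div, div_le_iff₀ (by positivity)]
    nlinarith
  obtain ⟨F, hF⟩ := hC ε ε0
  choose Mf M1 M2 M3 using hJ'
  let m : ℕ → ℕ := fun n => n / (p + 1)
  let M : ℕ → ℕ := fun n => Mf (Q * m n)
  have hm : Tendsto m atTop atTop := Nat.tendsto_div_const_atTop (Nat.succ_ne_zero p)
  have hm' : Tendsto (fun n => (m n : ℝ)) atTop atTop := tendsto_natCast_atTop_atTop.comp hm
  have a1 : ∀ n, ε * M n ≤ min (1 / 4) (γ * ρ.θ) * m n := fun n => by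
    have : (M n : ℝ) ≤ J * (Q * m n) := by exact_mod_cast M2 (Q * m n)
    calc ε * M n ≤ ε * (J * (Q * m n)) := mul_le_mul_of_nonneg_left this ε0.le
      _ = ε * (J * Q) * m n := by ring
      _ ≤ _ := mul_le_mul_of_nonneg_right ε3 (Nat.cast_nonneg _)
  have hM : ∀ n, ε * M n ≤ m n / 4 := fun n => (a1 n).trans (by
    nlinarith [min_le_left (1 / 4) (γ * ρ.θ), Nat.cast_nonneg (α := ℝ) (m n)])
  have a2 : ∀ n, ((p : ℝ) + 1) * m n ≤ n := fun n => by exact_mod_cast Nat.mul_div_le n (p + 1)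
  have hM' : ∀ᶠ n : ℕ in atTop, (4 * ρ.θ + 1) * n ≤ (ρ.c - ε) * M n := by
    filter_upwards [hm'.eventually_ge_atTop 1] with n hn
    have b1 : (n : ℝ) ≤ (p + 1) * (m n + 1) := by
      exact_mod_cast (Nat.lt_mul_div_succ n (Nat.succ_pos p)).le
    have b2 : (Q : ℝ) * m n ≤ M n := by exact_mod_cast M1 (Q * m n)
    have b3 : (n : ℝ) ≤ 2 * (p + 1) * m n := by nlinarith
    calc (4 * ρ.θ + 1) * n ≤ (4 * ρ.θ + 1) * (2 * (p + 1) * m n) := by gcongr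
      _ = (4 * ρ.θ + 1) * (2 * (p + 1)) * m n := by ring
      _ ≤ Q * (ρ.c / 2) * m n := by gcongr
      _ = ρ.c / 2 * (Q * m n) := by ring
      _ ≤ (ρ.c - ε) * M n := mul_le_mul (by linarith) b2 (by positivity) (by linarith)
  have hu : Tendsto (fun n : ℕ => (1 - ε) * ((1 - γ) * ρ.θ * n) - ε * M n -
      (1 + 3 * γ) * ρ.θ * (p * m n : ℕ)) atTop atTop := by
    refine tendsto_atTop_mono (fun n => ?_) (hm'.const_mul_atTop (r := ρ.θ / 2) (by positivity))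
    have b1 := (a1 n).trans
      (mul_le_mul_of_nonneg_right (min_le_right _ _) (Nat.cast_nonneg (m n)))
    have b2 : 0 ≤ ρ.θ * m n := by positivity
    have b3 : (1 - 2 * γ) * (ρ.θ * ((p + 1) * m n)) ≤ (1 - ε) * (1 - γ) * (ρ.θ * n) :=
      mul_le_mul (by nlinarith) (mul_le_mul_of_nonneg_left (a2 n) θ0.le) (by positivity)
        (mul_nonneg (by linarith) (by linarith))
    have b4 : γ * (p + 1) * (ρ.θ * m n) = 1 / 10 * (ρ.θ * m n) := by rw [γ1]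
    have b5 : 0 ≤ γ * (ρ.θ * m n) := by positivity
    push_cast
    nlinarith
  have hpm : Tendsto (fun n => p * m n) atTop atTop :=
    tendsto_atTop_mono (fun n => Nat.le_mul_of_pos_left _ (by exact_mod_cast one_pos.trans p1)) hm
  have sA := ((hF.stepA hT hζ hd hs hH iS hsig ε0.le γ0 ε1 γ2 e0).comp hpm).eventually
    (ge_mem_nhds η0)
  have sB := hF.stepB hT hζ hd hal hH ε0.le (ε1.trans γ2) hm hM hM' e0
  have sC := hF.countC (ε1.trans γ2) γ0 (n := fun n => n) tendsto_id hm hM hu η0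
  have hdiv : ∃ᶠ n in atTop, (p + 1) * m n = n := by
    refine frequently_atTop.2 fun a => ⟨(p + 1) * a, Nat.le_mul_of_pos_left _ (Nat.succ_pos p), ?_⟩
    simp only [m]
    rw [Nat.mul_div_cancel_left _ (Nat.succ_pos p)]
  obtain ⟨n, n1, ⟨⟨n2, n3⟩, G, g1, g2, g3⟩, n4, n5⟩ := (hdiv.and_eventually ((((sA.and sB).and sC).and
    ((hm'.eventually_ge_atTop (2 * -Real.log η + Real.log (ρ.C0 + 1))).and
      (hm.eventually_gt_atTop 0))))).exists
  have n6 : ((p : ℝ) + 1) * m n = n := by exact_mod_cast n1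
  have n7 : (0 : ℝ) < m n := Nat.cast_pos.2 n5
  have lo := ρ.lower hζ hd hH n (M n) (m n) _ g1 g3 η0 (-Real.log η)
    ((p * m n : ℕ) * (Hc μ[|K] d ζ - Hc μ[|K] d (pr2 ζ s) - e)) n5
  rw [neg_neg, Real.exp_log η0] at lo
  have hi := ((hH.names ρ.pT hd n).1.integrable (measurable_names ρ.pT.measurable hd n)
    (ρ.mlab hζ hd (M n) (m n))).restrict (s := ρ.KM (M n))
  have mk := mul_meas_ge_le_integral_of_nonneg (Eventually.of_forall Ic_nonneg) hi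
    (n * (hA + g - 2 * e))
  refine final_contra hc1 c11 (u := (μ[|K]).real (ρ.KM (M n))) ?_ g0 hA0 he (η := η)
    (by rw [hη]; field_simp) (by rw [← n6]; positivity) mk ?_ n3
  · refine (M3 (Q * m n)).trans (ENNReal.toReal_mono (measure_ne_top _ _) ?_)
    change μ (ρ.KM (M n)) ≤ _
    rw [cond_apply ρ.mK, inter_eq_self_of_subset_right (show ρ.KM (M n) ⊆ K from inter_subset_left)]
    exact le_mul_of_one_le_left' (ENNReal.one_le_inv.2 prob_le_one)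
  · have k1 := measureReal_union_le (μ := (μ[|K]).restrict (ρ.KM (M n)))
      {x | n * (hA + g - 2 * e) ≤ Ic μ[|K] (names T d n) (ρ.lab (M n) (m n)) x}
      {x | Ic μ[|K] (names T d n) (ρ.lab (M n) (m n)) x <
        (p * m n : ℕ) * (Hc μ[|K] d ζ - Hc μ[|K] d (pr2 ζ s) - e) -
          m n * (H0 μ[|K] d + 1) / η - 2 * -Real.log η - Real.log (ρ.C0 + 1)}
    rw [eq_univ_of_forall (s := _ ∪ _), measureReal_restrict_apply_univ] at k1
    · have n2' : (μ[|K]).real {x | Ic μ[|K] (ρ.sig (Real.exp (-((1 + 3 * γ) * ρ.θ *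
          (p * m n : ℕ))))) ζ x < (p * m n : ℕ) * (Hc μ[|K] d ζ - Hc μ[|K] d (pr2 ζ s) - e)} ≤ η :=
        n2
      linarith
    · intro x
      rcases le_or_gt (n * (hA + g - 2 * e)) (Ic μ[|K] (names T d n) (ρ.lab (M n) (m n)) x)
        with h | h
      · exact Or.inl h
      refine Or.inr (mem_ofPred_eq ▸ lt_of_lt_of_le h ?_)
      have k2 : Hc μ[|K] d ζ - Hc μ[|K] d (pr2 ζ s) = hA + g := by rw [hg]; ring
      rw [k2, ← n6, mul_div_assoc, Nat.cast_mul]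
      exact final_aux n7 e0.le p2 n4

end Rate

end Pool.Agent.P.MP_d483fb_an.Z.PS
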