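import Pool.Agent.P.MP_d483fb_an.Z.PS.Chart
import Pool.Agent.P.MP_d483fb_an.Z.PS.Ineq
import Pool.Agent.P.MP_d483fb_an.Z.Ent.KRV

/-!
The data of the rate inequality for a rectangle partition of a leaf structure, and the product
structure of the conditional measures on its atoms.
-/

open scoped Matrix Matrix.Norms.Operator Topology
open MeasureTheory Filter Set ProbabilityTheory

noncomputable section

namespace Pool.Agent.P.MP_d483fb_an.Z.PS

open Ent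

section shrink

variable {X Z D W V : Type} [MeasurableSpace X] {μ : Measure X} [IsProbabilityMeasure μ]
  {K : Set X} {T Ti : X → X} {ζ : X → Z} {d : X → D} {ρ : Rate μ K T Ti ζ d}
  [PseudoMetricSpace W] [PseudoMetricSpace V] {s : X → W} {al : X → V} {F : X → ℝ}

theorem Rate.Ctl.shrink (h : ρ.Ctl s al (1 / 2) F) : Shrink μ[|K] ζ (names T d) al := by
  intro δ hδ η hη
  obtain ⟨B, hB, hg⟩ := ρ.exists_good h.meas one_pos hη
  obtain ⟨r, hr, hs⟩ := h.modA δ hδ B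
  have hu : Tendsto (fun n : ℕ => (n : ℝ) / 2) atTop atTop :=
    tendsto_natCast_atTop_atTop.atTop_div_const (by norm_num)
  filter_upwards [hg, eventually_mul_exp_lt (B ^ 3) hr hu] with n g1 g2
  refine ⟨ρ.GoodA F B 1 n n ∩ ρ.Xb, (ρ.mGoodA h.meas B 1 n n).inter ρ.mXb,
    le_trans (le_of_eq (measureReal_congr ?_)) (g1 n).1, fun x hx y hy hz hd => ?_⟩
  · filter_upwards [(cond_absolutelyContinuous (μ := μ) (s := K)).ae_le ρ.aeXb] with x hx
    exact propext ⟨fun h1 h2 => h1 ⟨h2, hx⟩, fun h1 h2 => h1 h2.1⟩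
  have hd' := names_eq_iff.1 hd
  have hR := (h.atom x hx.1.1 y hy.1.1 hz).1
  have a1 := ((h.sa x hx.1.1 y hy.1.1 n hd').2 hR).2.2
  have a2 := (h.atom _ (ρ.T_mem hx.1.1 n) _ (ρ.T_mem hy.1.1 n)
    ((ρ.zeta_iter hx.1.1 hy.1.1 n).2 ⟨hz, hd'⟩)).2
  have a3 := a1.trans (Rate.mul3_le (b' := -(n / 2)) hx.1.2.2.1
    (by linarith [ρ.tge x hx.1.1 n]) (a2.trans hx.1.2.2.1) (by linarith) (ρ.N0 _ _))
  have a4 := (h.sb x hx.2 y hy.2 0 hR).2.2.1.trans
    (Rate.mul3_le (b' := 0) hx.1.2.1 (by simp) a3 (by linarith) (ρ.N0 _ _))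
  refine hs x hx.1.1 y hy.1.1 hz hx.1.2.1 (a4.trans (le_trans (le_of_eq ?_) g2.le))
  rw [Real.exp_zero]
  ring

end shrink

variable {X : Type} [MeasurableSpace X] {μ : Measure X} {ι : Type} [Fintype ι] [DecidableEq ι]

theorem f_iterate (S : Pre X μ ι) (s : ℝ × ℝ) (m : ℕ) (x : X) :
    (S.f s)^[m] x = S.f ((m : ℝ) • s) x := by
  induction m with
  | zero => simp [S.f_zero]
  | succ m ih => rw [Function.iterate_succ_apply', ih, ← S.f_add, Nat.cast_succ, add_smul, one_smul,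
      add_comm]

/-- The sum of the first `k` return times. -/
def tim (S : Pre X μ ι) (K : Set X) (k : ℕ) (x : X) : ℝ :=
  ((birkhoffSum (firstRet S.aE K) (retTime S.aE K) k x : ℕ) : ℝ)

theorem ret_iterate (S : Pre X μ ι) (K : Set X) (k : ℕ) (x : X) :
    (firstRet S.aE K)^[k] x = S.f (tim S K k x, 0) x := by
  rw [iterate_firstRet, Pre.aE_iterate, Pre.a, Int.cast_natCast, tim]

variable {J : Set ℝ} {χ : ℝ} {K Y : Set X} {ζ : X → BoxLab X} {d : X → ℕ} {del : X → ℝ}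

namespace BoxJ

section pre

variable {S : Pre X μ ι} (hB : BoxJ S J χ K ζ d del Y)
include hB

theorem tim_eq {x y : X} {k : ℕ}
    (h : ∀ i < k, d ((firstRet S.aE K)^[i] x) = d ((firstRet S.aE K)^[i] y)) :
    tim S K k y = tim S K k x := by
  rw [tim, tim, Nat.cast_inj]
  exact Finset.sum_congr rfl fun i hi => (hB.tau _ _ (h i (Finset.mem_range.1 hi))).symm

theorem aeY' : ∀ᵐ x ∂μ[|K], x ∈ Y := by
  filter_upwards [(cond_absolutelyContinuous (μ := μ) (s := K)).ae_le hB.aeY, ae_cond_mem hB.measK]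
    with x h1 h2 using h1 h2

/-- A coordinate whose fibres in the atoms are pieces of a subrelation is increasing. -/
theorem incr {W : Type} {c : X → W} {J' : Set ℝ}
    (hc : ∀ x ∈ K, ∀ y ∈ K, ζ x = ζ y → (c x = c y ↔ S.RJ J' x y)) :
    Incr μ[|K] (firstRet S.aE K) (pr2 ζ c) d := by
  have key : ∀ x ∈ Y, ∀ y ∈ Y, d x = d y →
      (S.RJ J' (firstRet S.aE K x) (firstRet S.aE K y) ↔ S.RJ J' x y) := fun x _ y _ e => by
    have h1 := ret_iterate S K 1 x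
    have h2 := ret_iterate S K 1 y
    rw [hB.tim_eq (x := x) (y := y) (fun i hi => by rwa [Nat.lt_one_iff.1 hi])] at h2
    rw [Function.iterate_one] at h1 h2
    rw [h1, h2, Pre.RJ_f_iff]
  have hT : ∀ x ∈ Y, firstRet S.aE K x ∈ K := fun x hx => hB.subK (hB.fwd x hx).2
  refine ⟨⟨Y, hB.aeY', fun x hx y hy h => ?_⟩, ⟨Y, hB.aeY', fun x hx y hy h => ?_⟩⟩
  · have e1 : ζ (firstRet S.aE K x) = ζ (firstRet S.aE K y) := congrArg Prod.fst h
    obtain ⟨e2, e3⟩ := (hB.inc x hx y hy).1 e1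
    exact Prod.ext (Prod.ext e2 ((hc x (hB.subK hx) y (hB.subK hy) e2).2 ((key x hx y hy e3).1
      ((hc _ (hT x hx) _ (hT y hy) e1).1 (congrArg Prod.snd h))))) e3
  · have e2 : ζ x = ζ y := congrArg (fun p => p.1.1) h
    have e3 : d x = d y := congrArg Prod.snd h
    have e1 := (hB.inc x hx y hy).2 ⟨e2, e3⟩
    exact Prod.ext e1 ((hc _ (hT x hx) _ (hT y hy) e1).2 ((key x hx y hy e3).2
      ((hc x (hB.subK hx) y (hB.subK hy) e2).1 (congrArg (fun p => p.1.2) h))))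

/-- The data of the rate inequality. -/
def rate [IsProbabilityMeasure μ] (s0 : ℝ × ℝ) (c : ℝ) (hc : 0 < c)
    (cell : ℝ → Matrix ι ι ℝ → ℕ) (hcell : ∀ r, Measurable (cell r)) :
    Rate μ K (firstRet S.aE K) (firstRet S.aE.symm K) ζ d where
  Y := Y
  R := S.RJ J
  N := S.N
  Nc x y := S.w.N (S.w.pr χ (S.n x y))
  Ns x y := S.w.N (S.w.al χ (S.n x y))
  t := tim S K
  θ := (μ.real K)⁻¹
  β := S.f (-s0)
  Xb := S.X0
  c := c
  sig r x := cell r (sC S χ ζ x)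
  C0 := ⌈S.w.nC * 2 ^ S.w.pD⌉₊
  mK := hB.measK
  K0 := hB.posK
  mY := hB.measY
  aeY := hB.aeY'
  inv x hx := ⟨(hB.fwd x hx).2, (hB.bwd x hx).2,
    firstRet_inv S.aE.apply_symm_apply (hB.subK hx) (hB.bwd x hx).1,
    firstRet_inv S.aE.symm_apply_apply (hB.subK hx) (hB.fwd x hx).1⟩
  pT := measurePreserving_firstRet_cond S.ergodic_aE.toMeasurePreserving hB.measK
  pTi := measurePreserving_firstRet_cond S.ergodic_aE.symm.toMeasurePreserving hB.measK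
  pβ := S.mp _
  mXb := S.meas0
  aeXb := S.ae0
  incr := hB.inc
  N0 := S.N_nonneg
  Nc0 _ _ := S.w.N_nonneg _
  Ns0 _ _ := S.w.N_nonneg _
  mt k := measurable_from_top.comp (Finset.measurable_sum _ fun i _ =>
    (measurable_retTime S.aE.measurable hB.measK).comp
      ((measurable_firstRet S.aE.measurable hB.measK).iterate i))
  tge x hx k := by
    have h : ∀ i, (firstRet S.aE K)^[i] x ∈ Y := fun i => by
      induction i with
      | zero => exact hx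
      | succ i ih => rw [Function.iterate_succ_apply']; exact (hB.fwd _ ih).2
    have := Finset.card_nsmul_le_sum (Finset.range k)
      (fun i => retTime S.aE K ((firstRet S.aE K)^[i] x)) 1 fun i _ => (hB.fwd _ (h i)).1
    rw [Finset.card_range, smul_eq_mul, mul_one] at this
    exact Nat.cast_le.2 this
  tmono x _ i j hij := Nat.cast_le.2 (Finset.sum_le_sum_of_subset (Finset.range_mono hij))
  lln := tendsto_retTime_sum S.ergodic_aE hB.measK hB.posK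
  θ0 := inv_pos.2 (ENNReal.toReal_pos hB.posK (measure_ne_top _ _))
  c0 := hc
  msig r := (hcell r).comp (measurable_sC hB.measZeta)

end pre

variable {S : LS X μ ι} (hB : BoxJ S.toPre J χ K ζ d del Y) (hJ : J.OrdConnected)
  (hχ : Wt.Extreme J χ)
include hJ hχ

theorem exists_ctl [IsProbabilityMeasure μ] {s0 : ℝ × ℝ} {c : ℝ} (hc : 0 < c)
    (h0 : s0.1 + s0.2 * χ = 0) (h1 : ∀ σ ∈ J, s0.1 + s0.2 * σ ≤ 0)
    (h2 : ∀ m, S.w.Nil (J \ {χ}) m → S.w.Nil {σ | s0.1 + s0.2 * σ ≤ -c} m)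
    {cell : ℝ → Matrix ι ι ℝ → ℕ} (hcell : ∀ r, Measurable (cell r))
    (c1 : ∀ r > 0, ∀ h h', S.w.Nil {χ} h → S.w.Nil {χ} h' → cell r h = cell r h' →
      S.w.N (h⁻¹ * h') ≤ r)
    (c2 : ∀ r > 0, ∀ h, S.w.Nil {χ} h → ∃ s : Finset ℕ, (s.card : ℝ) ≤ S.w.nC * 2 ^ S.w.pD ∧
      ∀ h', S.w.Nil {χ} h' → S.w.N (h⁻¹ * h') ≤ r → cell r h' ∈ s) {ε : ℝ} (hε : 0 < ε) :
    ∃ F, (hB.rate s0 c hc cell hcell).Ctl (W := ι → ι → ℝ) (V := ι → ι → ℝ)
      (sC S.toPre χ ζ) (aC S.toPre χ ζ) ε F := by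
  obtain ⟨q, qm, q1, hq⟩ := exists_scale S hε (κ := ‖s0‖ + 1) (by positivity)
  have hC := S.w.one_le_C
  have hC2 : 1 ≤ S.w.C ^ 2 := one_le_pow₀ hC
  let F : X → ℝ := fun x => S.w.C ^ 2 * q x + S.w.C ^ 2 * dis S.toPre ζ x + |(del x)⁻¹|
  have F1 : ∀ x, S.w.C ^ 2 * q x ≤ F x := fun x => by
    simp only [F]
    nlinarith [one_le_dis S.toPre ζ x, abs_nonneg (del x)⁻¹]
  have F2 : ∀ x, S.w.C ^ 2 * dis S.toPre ζ x ≤ F x := fun x => by
    simp only [F]
    nlinarith [q1 x, abs_nonneg (del x)⁻¹]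
  have F3 : ∀ x, (del x)⁻¹ ≤ F x := fun x => by
    simp only [F]
    nlinarith [q1 x, one_le_dis S.toPre ζ x, le_abs_self (del x)⁻¹]
  have F4 : ∀ x, q x ≤ F x := fun x => le_trans (by nlinarith [q1 x]) (F1 x)
  have F5 : ∀ x, dis S.toPre ζ x ≤ F x := fun x =>
    le_trans (by nlinarith [one_le_dis S.toPre ζ x]) (F2 x)
  have hq' : ∀ x ∈ S.X0, ∀ (J : Set ℝ) (m : Matrix ι ι ℝ), S.w.Nil J m →
      ∀ (s : ℝ × ℝ) (c u e v : ℝ), (∀ σ ∈ J, s.1 + s.2 * σ ≤ c) → ‖s‖ ≤ (‖s0‖ + 1) * u →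
        c + ε * u = e → q x * S.w.N m ≤ F x * v →
        S.w.N (S.L s x * m * (S.L s x)⁻¹) ≤ F x * Real.exp e * v :=
    fun x hx J m hm s c u e v a1 a2 a3 a4 => (hq x hx J m hm s c u a1 a2).trans (by
      rw [a3, mul_right_comm, mul_right_comm (F x)]
      exact mul_le_mul_of_nonneg_right a4 (Real.exp_pos _).le)
  have F6 : ∀ x m, q x * S.w.N m ≤ F x * S.w.N m := fun x m =>
    mul_le_mul_of_nonneg_right (F4 x) (S.w.N_nonneg _)
  refine ⟨F, ((qm.const_mul _).add ((measurable_dis hB.measZeta).const_mul _)).add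
    hB.measDel.inv.abs, fun x => (q1 x).trans (F4 x), fun x hx y hy k hd => ?_,
    fun x hx y hy m => ?_, fun x hx y hy e => ⟨hB.rel hJ (hB.subK hx) (hB.subK hy) e,
      (hB.N_le hJ (hB.subK hx) (hB.subK hy) e).trans (F2 x)⟩, fun x hx y hy hR h => ?_,
    fun r hr x hx y hy e h => ?_, fun r hr x hx => ?_, fun δ hδ B => ?_, fun δ hδ B => ?_⟩
  · dsimp only [rate]
    rw [ret_iterate, ret_iterate, hB.tim_eq hd]
    have t0 : 0 ≤ tim S.toPre K k x := Nat.cast_nonneg _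
    generalize tim S.toPre K k x = t at t0
    have n1 : ‖((t, 0) : ℝ × ℝ)‖ ≤ (‖s0‖ + 1) * t := by
      rw [Prod.norm_mk, norm_zero, Real.norm_of_nonneg t0, max_eq_left t0]
      nlinarith [norm_nonneg s0]
    refine ⟨(Pre.RJ_f_iff _).1, fun hR => ⟨?_, ?_, ?_⟩⟩
    · have hx0 := Pre.R_mem_left hR.1
      rw [Pre.n_f hR.1, Wt.pr_conj (S.L_lev _ x hx0) (S.L_lev _ x hx0).inv]
      exact hq' x hx0 _ _ hR.2.pr _ t t _ _ (fun σ _ => by simp) n1 (by ring) (F6 _ _)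
    · have hx0 := Pre.R_mem_left hR.1
      rw [Pre.n_f hR.1, Wt.al_conj (S.L_lev _ x hx0) (Pre.isUnit_L hx0 _)]
      exact hq' x hx0 _ _ hR.2.al_univ _ t t _ _ (fun σ _ => by simp) n1 (by ring) (F6 _ _)
    · have hR' := hR.f (t, 0)
      have e := Pre.n_f hR'.1 (-(t, 0))
      rw [Pre.f_neg_f, Pre.f_neg_f] at e
      rw [Pre.N, e]
      exact hq' _ (Pre.R_mem_left hR'.1) _ _ hR'.2 _ (-t) t _ _ (fun σ _ => by simp)
        (by rwa [norm_neg]) (by ring) (F6 _ _)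
  · dsimp only [rate]
    rw [f_iterate, f_iterate, smul_neg]
    intro hR'
    have hR := (Pre.RJ_f_iff _).1 hR'
    have m0 : (0 : ℝ) ≤ m := Nat.cast_nonneg m
    have n1 : ‖(m : ℝ) • s0‖ ≤ (‖s0‖ + 1) * m := by
      rw [norm_smul, Real.norm_of_nonneg m0]
      nlinarith
    have e := Pre.n_f hR'.1 ((m : ℝ) • s0)
    rw [Pre.f_f_neg, Pre.f_f_neg] at e
    have hx' := Pre.R_mem_left hR'.1
    refine ⟨hR, ?_, ?_, ?_⟩
    · rw [Pre.N, e]
      refine hq' _ hx' _ _ hR'.2 _ 0 m _ _ (fun σ hσ => ?_) n1 (by ring) (F6 _ _)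
      simp only [Prod.smul_fst, Prod.smul_snd, smul_eq_mul]
      nlinarith [h1 σ hσ]
    · rw [e, Wt.al_conj (S.L_lev _ _ hx') (Pre.isUnit_L hx' _)]
      refine hq' _ hx' _ _ (h2 _ (hR'.2.al hχ hJ)) _ (-c * m) m _ _ (fun σ hσ => ?_) n1 (by ring) ?_
      · simp only [Prod.smul_fst, Prod.smul_snd, smul_eq_mul]
        nlinarith [show s0.1 + s0.2 * σ ≤ -c from hσ]
      · refine (mul_le_mul_of_nonneg_left hR'.2.N_al_le (zero_le_one.trans (q1 _))).trans ?_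
        rw [← mul_assoc, mul_comm (q _)]
        exact mul_le_mul_of_nonneg_right (F1 _) (S.w.N_nonneg _)
    · rw [Pre.n_f hR.1, Wt.pr_conj (S.L_lev _ x hx) (S.L_lev _ x hx).inv]
      refine hq' x hx _ _ hR.2.pr _ 0 m _ _ (fun σ hσ => ?_) (by rwa [norm_neg]) (by ring)
        (mul_le_mul (F4 x) (Wt.N_pr_le _) (S.w.N_nonneg _) (by linarith [q1 x, F4 x]))
      rw [mem_singleton_iff.1 hσ]
      simp only [Prod.fst_neg, Prod.snd_neg, Prod.smul_fst, Prod.smul_snd, smul_eq_mul]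
      exact le_of_eq (by linear_combination (-(m : ℝ)) * h0)
  · obtain ⟨d0, d1⟩ := hB.inner x hx
    refine (d1 y hR ?_).2.symm
    have h3 : (del x)⁻¹ * S.toPre.N x y < 1 :=
      (mul_le_mul_of_nonneg_right (F3 x) (S.toPre.N_nonneg x y)).trans_lt h
    rwa [inv_mul_lt_iff₀ d0, mul_one] at h3
  · exact (hB.N_cell hJ hχ (hB.subK hx) (hB.subK hy) e).2.trans (mul_le_mul (F5 x)
      (c1 r hr _ _ (hB.nil_sC (hB.subK hx)) (hB.nil_sC (hB.subK hy)) h) (S.w.N_nonneg _)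
      (by linarith [q1 x, F4 x]))
  · obtain ⟨s, s1, s2⟩ := c2 r hr _ (hB.nil_sC (hB.subK hx))
    refine le_trans (encard_le_encard (t := (s : Set ℕ)) ?_) ?_
    · rintro _ ⟨y, ⟨hy, e, h⟩, rfl⟩
      exact s2 _ (hB.nil_sC (hB.subK hy)) ((hB.N_cell hJ hχ (hB.subK hx) (hB.subK hy) e).1.trans
        ((mul_le_mul_of_nonneg_right (F5 x) (S.w.N_nonneg _)).trans h))
    · rw [encard_coe_eq_coe_finsetCard, Nat.cast_le]
      exact (Nat.cast_le (α := ℝ)).1 (s1.trans (Nat.le_ceil _))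
  · obtain ⟨r, hr, h⟩ := hB.mod_sC hJ hχ hδ B
    exact ⟨r, hr, fun x hx y hy e a1 a2 =>
      dist_le_of_norm (h x (hB.subK hx) y (hB.subK hy) e ((F5 x).trans a1) a2)⟩
  · obtain ⟨r, hr, h⟩ := hB.mod_aC hJ hχ hδ B
    exact ⟨r, hr, fun x hx y hy e a1 a2 =>
      dist_le_of_norm (h x (hB.subK hx) y (hB.subK hy) e ((F5 x).trans a1) a2)⟩

include hB in
/-- The conditional measures on the atoms are products. -/
theorem cp_prod [StandardBorelSpace X] [Nonempty X] [IsProbabilityMeasure μ] :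
    ∀ᵐ x ∂μ[|K], (cp μ[|K] ζ x).map (pr2 (sC S.toPre χ ζ) (aC S.toPre χ ζ)) =
      ((cp μ[|K] (pr2 ζ (aC S.toPre χ ζ)) x).map (sC S.toPre χ ζ)).prod
        ((cp μ[|K] (pr2 ζ (sC S.toPre χ ζ)) x).map (aC S.toPre χ ζ)) := by
  have := cond_isProbabilityMeasure (μ := μ) hB.posK
  obtain ⟨e, he, he'⟩ := hχ.exists_sign
  obtain ⟨c, hc, hc'⟩ := S.w.exists_slope_gap χ
  have hcell : ∀ r : ℝ, ∃ cell : Matrix ι ι ℝ → ℕ, Measurable cell ∧ (0 < r →
      (∀ h h', S.w.Nil {χ} h → S.w.Nil {χ} h' → cell h = cell h' → S.w.N (h⁻¹ * h') ≤ r) ∧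
      ∀ h, S.w.Nil {χ} h → ∃ s : Finset ℕ, (s.card : ℝ) ≤ S.w.nC * 2 ^ S.w.pD ∧
        ∀ h', S.w.Nil {χ} h' → S.w.N (h⁻¹ * h') ≤ r → cell h' ∈ s) := fun r => by
    by_cases hr : 0 < r
    · obtain ⟨cell, a1, a2, a3⟩ := Wt.exists_cell (w := S.w) (H := {h | S.w.Nil {χ} h})
        (fun h hh => Wt.Nil.univ hh) hr
      refine ⟨cell, a1, fun _ => ⟨fun h h' b1 b2 => a2 h b1 h' b2, fun h hh => ?_⟩⟩
      have := a3 h r hh.univ hr.le
      rwa [div_self hr.ne', one_add_one_eq_two] at this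
    · exact ⟨fun _ => 0, measurable_const, fun h => absurd h hr⟩
  choose cell m1 m2 using hcell
  have hC := fun ε (hε : 0 < ε) => hB.exists_ctl hJ hχ (s0 := (e * χ, -e)) hc (by ring)
    (fun σ hσ => by nlinarith [he' σ hσ]) (fun m hm i j hij => ⟨(hm i j hij).1, by
      have a1 := he' _ (hm i j hij).2.1
      have a2 := hc' i j (hm i j hij).2.2
      change e * χ + -e * S.w.slope i j ≤ -c
      rcases he with rfl | rfl
      · rw [abs_of_nonneg (by linarith)] at a2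
        linarith
      · rw [abs_of_nonpos (by linarith)] at a2
        linarith⟩) m1 (fun r hr => (m2 r hr).1) (fun r hr => (m2 r hr).2) hε
  have iS := hB.incr fun x hx y hy e => hB.sC_iff hJ hχ hx hy e
  have iA := hB.incr fun x hx y hy e => hB.aC_iff hχ hx hy e
  obtain ⟨F, hF⟩ := hC (1 / 2) (by norm_num)
  let ρ := hB.rate (e * χ, -e) c hc cell m1
  exact krv (S := ι → ι → ℝ) (A := ι → ι → ℝ) ρ.pT hB.measD hB.ent
    hB.measZeta (measurable_sC hB.measZeta) (measurable_aC hB.measZeta)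
    ρ.isIncr iS iA (fun n => ⟨Y, hB.aeY', hB.rect n⟩) hF.shrink
    (ρ.ineq hC (ergodic_firstRet_cond S.toPre.ergodic_aE hB.measK)
      hB.measZeta hB.measD (measurable_sC hB.measZeta) (measurable_aC hB.measZeta) hB.ent iS
      fun r x _ y _ _ h => congrArg (cell r) h)

end BoxJ

end Pool.Agent.P.MP_d483fb_an.Z.PS
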