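import Pool.Agent.P.MP_d483fb_an.Z.PS.Good
import Pool.Agent.P.MP_d483fb_an.Z.Ent.E6

/-!
The lower bound for the information of names given the label after `β^[M]` and the past digits.
-/

namespace Pool.Agent.P.MP_d483fb_an.Z.PS

open MeasureTheory Filter Set Topology ProbabilityTheory Ent
open scoped ENNReal

theorem lusin_pair {Z W : Type*} [TopologicalSpace Z] [T2Space Z] [MetricSpace W] :
    LusinRel fun (δ : ℝ) (p q : Z × W) => p.1 = q.1 ∧ dist p.2 q.2 ≤ δ := by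
  refine ⟨fun δ δ' _ h p q hp => ⟨hp.1, hp.2.trans h⟩, fun Q Q' hQ hQ' hd => ?_⟩
  have hc : IsCompact (Q ×ˢ Q' ∩ {p : (Z × W) × Z × W | p.1.1 = p.2.1}) :=
    (hQ.prod hQ').inter_right (isClosed_eq (by fun_prop) (by fun_prop))
  obtain ⟨a, ha, h⟩ := hc.exists_forall_le' (f := fun p => dist p.1.2 p.2.2) (a := 0)
    (by fun_prop) fun p hp => dist_pos.2 fun e =>
      disjoint_left.1 hd hp.1.1 ((Prod.ext hp.2 e : p.1 = p.2) ▸ hp.1.2)
  exact ⟨a / 2, by positivity, fun z hz z' hz' hr => by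
    linarith [h (z, z') ⟨⟨hz, hz'⟩, hr.1⟩, hr.2]⟩

theorem ae_fibre_pos {X E : Type*} [MeasurableSpace X] [Countable E] (ν : Measure X)
    [IsFiniteMeasure ν] (e : X → E) : ∀ᵐ x ∂ν, 0 < ν.real {y | e y = e x} := by
  have h : ∀ i : E, ∀ᵐ x ∂ν, e x = i → 0 < ν.real {y | e y = i} := fun i => by
    by_cases h0 : ν {y | e y = i} = 0
    · filter_upwards [measure_eq_zero_iff_ae_notMem.1 h0] with x hx h using absurd h hx
    · exact Eventually.of_forall fun _ _ => ENNReal.toReal_pos h0 (measure_ne_top _ _)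
  filter_upwards [ae_all_iff.2 h] with x hx using hx _ rfl

variable {X Z D : Type} [MeasurableSpace X] [StandardBorelSpace X] [Nonempty X]
  [MeasurableSpace Z] [StandardBorelSpace Z]
  [MeasurableSpace D] [Countable D] [MeasurableSingletonClass D]
  {μ : Measure X} [IsProbabilityMeasure μ] {K : Set X} {T Ti : X → X} {ζ : X → Z} {d : X → D}

omit [StandardBorelSpace Z] in
theorem Ic_measure {E : Type*} {ν ν' : Measure X} [IsFiniteMeasure ν] [IsFiniteMeasure ν']
    (h : ν = ν') (f : X → E) (g : X → Z) : Ic ν f g = Ic ν' f g := by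
  subst h
  rfl

/-- Three applications of the chain rule. -/
theorem Ic_three {E E' : Type*} [MeasurableSpace E] [Countable E] [MeasurableSingletonClass E]
    [MeasurableSpace E'] [Countable E'] [MeasurableSingletonClass E'] (ν : Measure X)
    [IsFiniteMeasure ν] {g : X → Z} {f : X → D} {e : X → E} {σ : X → E'} (hg : Measurable g)
    (hf : Measurable f) (he : Measurable e) (hσ : Measurable σ) : ∀ᵐ x ∂ν,
      Ic ν σ g x ≤ Ic ν f g x + Ic ν e (pr2 g f) x + Ic ν σ (pr2 (pr2 g f) e) x := by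
  filter_upwards [Ic_pair (μ := ν) hf hσ hg, Ic_pair (μ := ν) he hσ (hg.prodMk hf),
    Ic_mono (μ := ν) (e := σ) (hf.prodMk hσ) hg
      (Det.of_forall fun x y h => congrArg (fun p => p.2.2) h),
    Ic_mono (μ := ν) (e := σ) (he.prodMk hσ) (hg.prodMk hf)
      (Det.of_forall fun x y h => congrArg (fun p => p.2.2) h)] with x h1 h2 h3 h4
  have e1 : Ic ν σ g x ≤ Ic ν (pr2 f σ) g x := h3
  have e2 : Ic ν σ (pr2 g f) x ≤ Ic ν (pr2 e σ) (pr2 g f) x := h4
  have e3 : Ic ν (pr2 e σ) (pr2 g f) x = Ic ν e (pr2 g f) x + Ic ν σ (pr2 (pr2 g f) e) x := h2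
  linarith

namespace Rate

variable (ρ : Rate μ K T Ti ζ d)

/-- Membership in `KM` and the past digits. -/
def past (M m : ℕ) (x : X) : Prop × (Fin m → D) := (x ∈ ρ.KM M, names T d m (Ti^[m] x))

/-- The label after `β^[M]` together with the past digits. -/
def lab (M m : ℕ) : X → Z × Prop × (Fin m → D) := pr2 (ζ ∘ ρ.β^[M]) (ρ.past M m)

omit [StandardBorelSpace X] [Nonempty X] [MeasurableSpace Z] [StandardBorelSpace Z] [Countable D]
  [MeasurableSingletonClass D] [IsProbabilityMeasure μ] in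
theorem mpast (hd : Measurable d) (M m : ℕ) : Measurable (ρ.past M m) :=
  (ρ.mKM M).mem.prodMk
    ((measurable_names ρ.pT.measurable hd m).comp (ρ.pTi.iterate m).measurable)

omit [StandardBorelSpace X] [Nonempty X] [StandardBorelSpace Z] [Countable D]
  [MeasurableSingletonClass D] [IsProbabilityMeasure μ] in
theorem mlab (hζ : Measurable ζ) (hd : Measurable d) (M m : ℕ) : Measurable (ρ.lab M m) :=
  (hζ.comp (ρ.pβ.iterate M).measurable).prodMk (ρ.mpast hd M m)

omit [StandardBorelSpace X] [Nonempty X] [MeasurableSpace Z] [StandardBorelSpace Z] [Countable D]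
  [MeasurableSpace D] [MeasurableSingletonClass D] [IsProbabilityMeasure μ] in
theorem sat_lab (ν : Measure X) (M m : ℕ) : Sat ν (ρ.lab M m) (ρ.KM M) :=
  Det.of_forall fun _ _ h => congrArg (fun p => p.2.1) h

omit [StandardBorelSpace X] [Nonempty X] [MeasurableSpace Z] [StandardBorelSpace Z] [Countable D]
  [MeasurableSpace D] [MeasurableSingletonClass D] [IsProbabilityMeasure μ] in
theorem lab_eq {M m : ℕ} {x y : X} (h : ρ.lab M m x = ρ.lab M m y) :
    ζ (ρ.β^[M] x) = ζ (ρ.β^[M] y) ∧ ∀ i < m, d (T^[i] (Ti^[m] x)) = d (T^[i] (Ti^[m] y)) :=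
  ⟨congrArg (fun p => p.1) h, names_eq_iff.1 (congrArg (fun p => p.2.2) h)⟩

omit [StandardBorelSpace X] [Nonempty X] [MeasurableSpace Z] [StandardBorelSpace Z] [Countable D]
  [MeasurableSpace D] [MeasurableSingletonClass D] [IsProbabilityMeasure μ] in
theorem pres_cond (M : ℕ) : MeasurePreserving ρ.β^[M] μ[|ρ.β^[M] ⁻¹' K] μ[|K] := by
  have h := ρ.pβ.iterate M
  refine ⟨h.measurable, ?_⟩
  rw [ProbabilityTheory.cond, ProbabilityTheory.cond, Measure.map_smul,
    (h.restrict_preimage ρ.mK).map_eq, h.measure_preimage ρ.mK.nullMeasurableSet]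

omit [StandardBorelSpace X] [Nonempty X] [MeasurableSpace Z] [StandardBorelSpace Z] [Countable D]
  [MeasurableSpace D] [MeasurableSingletonClass D] [IsProbabilityMeasure μ] in
theorem restrict_KM (M : ℕ) :
    (μ[|K]).restrict (ρ.KM M) = (μ[|ρ.β^[M] ⁻¹' K]).restrict (ρ.KM M) := by
  rw [ProbabilityTheory.cond, ProbabilityTheory.cond, Measure.restrict_smul, Measure.restrict_smul,
    Measure.restrict_restrict (ρ.mKM M), Measure.restrict_restrict (ρ.mKM M),
    (ρ.pβ.iterate M).measure_preimage ρ.mK.nullMeasurableSet,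
    inter_eq_self_of_subset_left (show ρ.KM M ⊆ K from inter_subset_left),
    inter_eq_self_of_subset_left (show ρ.KM M ⊆ _ from inter_subset_right)]

/-- The lower bound off five small sets. -/
theorem lower (hζ : Measurable ζ) (hd : Measurable d) (hH : FinEnt μ[|K] d) (n M m : ℕ) (r : ℝ)
    {G : Set X} (hG : MeasurableSet G)
    (hc : ∀ x ∈ G, ((fun y => ρ.sig r (ρ.β^[M] y)) '' {y | y ∈ G ∧ ζ (ρ.β^[M] x) = ζ (ρ.β^[M] y) ∧
      (∀ i < m, d (T^[i] (Ti^[m] x)) = d (T^[i] (Ti^[m] y))) ∧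
      ∀ i < n, d (T^[i] x) = d (T^[i] y)}).encard ≤ ρ.C0)
    {η : ℝ} (hη : 0 < η) (t L : ℝ) (hm : 0 < m) :
    ((μ[|K]).restrict (ρ.KM M)).real {x | Ic μ[|K] (names T d n) (ρ.lab M m) x <
      L - m * (H0 μ[|K] d + 1) / η - 2 * t - Real.log (ρ.C0 + 1)} ≤
      (μ[|K]).real (ρ.KM M \ G) + (μ[|K]).real {x | Ic μ[|K] (ρ.sig r) ζ x < L} +
        2 * Real.exp (-t) + η := by
  classical
  have := cond_isProbabilityMeasure (μ := μ) ρ.K0
  have hβ := ρ.pres_cond M
  have : IsProbabilityMeasure μ[|ρ.β^[M] ⁻¹' K] := cond_isProbabilityMeasure (by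
    rw [(ρ.pβ.iterate M).measure_preimage ρ.mK.nullMeasurableSet]; exact ρ.K0)
  set ν := μ[|K] with hν
  set ν' := μ[|ρ.β^[M] ⁻¹' K] with hν'
  have hr : ν.restrict (ρ.KM M) = ν'.restrict (ρ.KM M) := ρ.restrict_KM M
  have hl := ρ.mlab hζ hd M m
  have hp := ρ.mpast hd M m
  have hn := measurable_names ρ.pT.measurable hd
  have hσ : Measurable (ρ.sig r ∘ ρ.β^[M]) := (ρ.msig r).comp hβ.measurable
  have hB : Measurable (ζ ∘ ρ.β^[M]) := hζ.comp hβ.measurable
  -- the weights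
  let q : X → Prop × (Fin m → D) → ℝ := fun _ i =>
    if i.1 then ν.real {y | names T d m y = i.2} else 0
  have hq : Wts ν' (ζ ∘ ρ.β^[M]) q := by
    refine ⟨fun _ => measurable_const, fun x i => ?_, Det.of_forall fun _ _ _ => rfl,
      Eventually.of_forall fun x s => ?_⟩
    · simp only [q]
      split_ifs
      exacts [measureReal_nonneg, le_rfl]
    · simp only [q]
      rw [← Finset.sum_filter, ← measureReal_biUnion_finset]
      · exact measureReal_le_one
      · intro i hi j hj hij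
        refine disjoint_left.2 fun y h1 h2 => hij (Prod.ext ?_ (h1.symm.trans h2))
        exact propext (iff_of_true (Finset.mem_filter.1 hi).2 (Finset.mem_filter.1 hj).2)
      · exact fun i _ => hn m (measurableSet_singleton _)
  have b4 := meas_Ic_gt hp hB hq t
  have b3 := meas_count (μ := ν') (g := pr2 (ρ.lab M m) (names T d n)) hσ (hl.prodMk (hn n)) hG
    (Q := ρ.C0 + 1) (by positivity) (fun z => by
      by_cases h : ∃ x ∈ G, pr2 (ρ.lab M m) (names T d n) x = z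
      · obtain ⟨x, hx, rfl⟩ := h
        have hf := finite_of_encard_le_coe (hc x hx)
        refine ⟨hf.toFinset, ?_, fun y hy e => hf.mem_toFinset.2 ⟨y, ⟨hy, ?_⟩, rfl⟩⟩
        · have h1 := hc x hx
          rw [hf.encard_eq_coe_toFinset_card, Nat.cast_le] at h1
          exact_mod_cast h1.trans (Nat.le_succ _)
        · have e1 := ρ.lab_eq (congrArg Prod.fst e).symm
          exact ⟨e1.1, e1.2, names_eq_iff.1 (congrArg Prod.snd e).symm⟩
      · exact ⟨∅, by simp; positivity, fun y hy e => absurd ⟨y, hy, e⟩ h⟩) t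
  rw [probReal_univ, mul_one] at b3 b4
  -- Markov for the past digits
  obtain ⟨f1, f2⟩ := hH.names ρ.pT hd m
  have hI0 : ∀ (x : X), 0 ≤ I0 ν (names T d m) x := fun x =>
    neg_nonneg.2 (Real.log_nonpos measureReal_nonneg measureReal_le_one)
  have hH0 : 0 ≤ H0 ν d := integral_nonneg fun x =>
    neg_nonneg.2 (Real.log_nonpos measureReal_nonneg measureReal_le_one)
  have hm0 : (0 : ℝ) < m := Nat.cast_pos.2 hm
  have b5 : ν.real (Ti^[m] ⁻¹' {x | m * (H0 ν d + 1) / η ≤ I0 ν (names T d m) x}) ≤ η := by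
    rw [(ρ.pTi.iterate m).measureReal_preimage
      (nullMeasurableSet_le aemeasurable_const f1.aemeasurable)]
    have h1 := mul_meas_ge_le_integral_of_nonneg (Eventually.of_forall hI0) f1
      (m * (H0 ν d + 1) / η)
    have h2 : (0 : ℝ) < m * (H0 ν d + 1) := by positivity
    rw [div_mul_eq_mul_div, div_le_iff₀ hη] at h1
    have h3 : ∫ x, I0 ν (names T d m) x ∂ν ≤ m * (H0 ν d + 1) := f2.trans (by nlinarith)
    exact le_of_mul_le_mul_left (h1.trans (mul_le_mul_of_nonneg_right h3 hη.le)) h2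
  have hm2 : MeasurableSet {x | Ic ν (ρ.sig r) ζ x < L} :=
    measurableSet_lt (measurable_Ic (ρ.msig r) hζ) measurable_const
  have b2 : (ν.restrict (ρ.KM M)).real (ρ.β^[M] ⁻¹' {x | Ic ν (ρ.sig r) ζ x < L}) ≤
      ν.real {x | Ic ν (ρ.sig r) ζ x < L} := by
    rw [measureReal_restrict_apply' (ρ.mKM M), inter_comm]
    exact ENNReal.toReal_mono (measure_ne_top _ _) (ρ.cond_pull M hm2)
  have b1 : (ν.restrict (ρ.KM M)).real Gᶜ = ν.real (ρ.KM M \ G) := by
    rw [measureReal_restrict_apply' (ρ.mKM M), inter_comm, sdiff_eq]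
  have r1 : ∀ A, (ν.restrict (ρ.KM M)).real A ≤ ν.real A := fun A =>
    ENNReal.toReal_mono (measure_ne_top _ _) (Measure.restrict_le_self A)
  have r2 : ∀ A, (ν.restrict (ρ.KM M)).real A ≤ ν'.real A := fun A => by
    rw [hr]
    exact ENNReal.toReal_mono (measure_ne_top _ _) (Measure.restrict_le_self A)
  have a1 : ∀ᵐ x ∂ν.restrict (ρ.KM M), Ic ν (names T d n) (ρ.lab M m) x =
      Ic ν' (names T d n) (ρ.lab M m) x := by
    have c1 := Ic_restrict hl (ρ.mKM M) (ρ.sat_lab ν M m) (names T d n)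
    have c2 := Ic_restrict hl (ρ.mKM M) (ρ.sat_lab ν' M m) (names T d n)
    rw [← Ic_measure hr, ← hr] at c2
    filter_upwards [c1, c2] with x h1 h2 using h1.symm.trans h2
  have a2 := ae_restrict_of_ae (s := ρ.KM M)
    ((Ic_three ν' hB hp (hn n) hσ).and (Ic_comp hβ (ρ.msig r) hζ))
  rw [← hr] at a2
  have a3 := ae_restrict_of_ae (s := ρ.KM M)
    ((ρ.pTi.iterate m).quasiMeasurePreserving.ae (ae_fibre_pos ν (names T d m)))
  set A1 := Gᶜ
  set A2 := ρ.β^[M] ⁻¹' {x | Ic ν (ρ.sig r) ζ x < L}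
  set A3 := G ∩ {x | Real.log (ρ.C0 + 1) + t <
    Ic ν' (ρ.sig r ∘ ρ.β^[M]) (pr2 (ρ.lab M m) (names T d n)) x}
  set A4 := {x | 0 < q x (ρ.past M m x) ∧ -Real.log (q x (ρ.past M m x)) + t <
    Ic ν' (ρ.past M m) (ζ ∘ ρ.β^[M]) x}
  set A5 := Ti^[m] ⁻¹' {x | m * (H0 ν d + 1) / η ≤ I0 ν (names T d m) x}
  refine le_trans (b := (ν.restrict (ρ.KM M)).real (A1 ∪ A2 ∪ A3 ∪ A4 ∪ A5))
    (ENNReal.toReal_mono (measure_ne_top _ _) (measure_mono_ae ?_)) ?_
  · filter_upwards [a1, a2, a3, ae_restrict_mem (ρ.mKM M)] with x h1 h2 h3 h4 h5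
    by_contra hcon
    have k1 : x ∉ A1 := fun h => hcon (Or.inl (Or.inl (Or.inl (Or.inl h))))
    have k2 : x ∉ A2 := fun h => hcon (Or.inl (Or.inl (Or.inl (Or.inr h))))
    have k3 : x ∉ A3 := fun h => hcon (Or.inl (Or.inl (Or.inr h)))
    have k4 : x ∉ A4 := fun h => hcon (Or.inl (Or.inr h))
    have k5 : x ∉ A5 := fun h => hcon (Or.inr h)
    have eq : q x (ρ.past M m x) = ν.real {y | names T d m y = names T d m (Ti^[m] x)} :=
      if_pos h4
    have j2 : L ≤ Ic ν (ρ.sig r) ζ (ρ.β^[M] x) := not_lt.1 k2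
    have j3 : Ic ν' (ρ.sig r ∘ ρ.β^[M]) (pr2 (ρ.lab M m) (names T d n)) x ≤
      Real.log (ρ.C0 + 1) + t := not_lt.1 fun h => k3 ⟨not_not.1 k1, h⟩
    have j4 : Ic ν' (ρ.past M m) (ζ ∘ ρ.β^[M]) x ≤ -Real.log (q x (ρ.past M m x)) + t :=
      not_lt.1 fun h => k4 ⟨eq ▸ h3, h⟩
    have j5 : I0 ν (names T d m) (Ti^[m] x) < m * (H0 ν d + 1) / η := not_le.1 k5
    have j6 : Ic ν (names T d n) (ρ.lab M m) x <
      L - m * (H0 ν d + 1) / η - 2 * t - Real.log (ρ.C0 + 1) := h5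
    have j7 : Ic ν' (ρ.sig r ∘ ρ.β^[M]) (ζ ∘ ρ.β^[M]) x ≤ Ic ν' (ρ.past M m) (ζ ∘ ρ.β^[M]) x +
      Ic ν' (names T d n) (ρ.lab M m) x +
      Ic ν' (ρ.sig r ∘ ρ.β^[M]) (pr2 (ρ.lab M m) (names T d n)) x := h2.1
    rw [eq] at j4
    unfold I0 at j5
    linarith [h2.2]
  · linarith [measureReal_union_le (μ := ν.restrict (ρ.KM M)) (A1 ∪ A2 ∪ A3 ∪ A4) A5,
      measureReal_union_le (μ := ν.restrict (ρ.KM M)) (A1 ∪ A2 ∪ A3) A4,
      measureReal_union_le (μ := ν.restrict (ρ.KM M)) (A1 ∪ A2) A3,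
      measureReal_union_le (μ := ν.restrict (ρ.KM M)) A1 A2, r1 A5, r2 A3, r2 A4]

end Rate

end Pool.Agent.P.MP_d483fb_an.Z.PS
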