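import Mathlib

/-!
Elementary measure theoretic lemmas used for the product structure.
-/

namespace Pool.Agent.P.MP_d483fb_an.Z.PS

open MeasureTheory Filter Set Topology
open scoped ENNReal

variable {X : Type*} [MeasurableSpace X]

/-- Bonferroni lower bound for sets of equal measure with small pairwise intersections. -/
theorem bonferroni (μ : Measure X) [IsFiniteMeasure μ] (A : ℕ → Set X)
    (hA : ∀ i, MeasurableSet (A i)) {p c : ℝ} (hc : 0 ≤ c) (hp : ∀ i, μ.real (A i) = p) (J : ℕ)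
    (h : ∀ i j, i < j → j < J → μ.real (A i ∩ A j) ≤ c) :
    ∀ n ≤ J, n * p - n * n * c ≤ μ.real (⋃ i ∈ Finset.range n, A i) := by
  intro n
  induction n with
  | zero => simp
  | succ n ih =>
    intro hn
    have h1 := ih (by omega)
    have hU : MeasurableSet (⋃ i ∈ Finset.range n, A i) :=
      Finset.measurableSet_biUnion _ fun i _ => hA i
    have h2 : μ.real ((⋃ i ∈ Finset.range n, A i) ∩ A n) ≤ n * c := by
      rw [iUnion₂_inter]
      refine (measureReal_biUnion_finset_le _ _).trans ?_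
      refine (Finset.sum_le_card_nsmul _ _ c fun i hi => h i n (Finset.mem_range.1 hi)
        (by omega)).trans ?_
      simp
    have h3 := measureReal_union_add_inter (μ := μ) (s := ⋃ i ∈ Finset.range n, A i) (hA n)
      (measure_ne_top _ _) (measure_ne_top _ _)
    rw [Finset.range_add_one, Finset.set_biUnion_insert, union_comm]
    rw [hp n] at h3
    push_cast
    have : (0 : ℝ) ≤ n := Nat.cast_nonneg n
    nlinarith

/-- Returns with a definite measure at syndetic multiples of any step. -/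
theorem exists_shift_inter (μ : Measure X) [IsProbabilityMeasure μ] {K : Set X}
    (hK : MeasurableSet K) (h0 : μ K ≠ 0) : ∃ J : ℕ, ∃ c : ℝ, 0 < c ∧
      ∀ β : X → X, MeasurePreserving β μ μ → ∀ Q : ℕ,
        ∃ M, Q ≤ M ∧ M ≤ J * Q ∧ c ≤ μ.real (K ∩ β^[M] ⁻¹' K) := by
  have hp : 0 < μ.real K := ENNReal.toReal_pos h0 (measure_ne_top _ _)
  obtain ⟨J, hJ⟩ := exists_nat_gt (2 / μ.real K)
  have hJ0 : (0 : ℝ) < J := (div_pos two_pos hp).trans hJ
  refine ⟨J, 1 / (J * J), by positivity, fun β hβ Q => ?_⟩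
  by_contra hcon
  push Not at hcon
  have hb := bonferroni μ (fun i => β^[i * Q] ⁻¹' K) (fun i => (hβ.iterate _).measurable hK)
    (p := μ.real K) (c := 1 / (J * J)) (by positivity)
    (fun i => (hβ.iterate _).measureReal_preimage hK.nullMeasurableSet) J (fun i j hij hj => by
      obtain ⟨r, rfl⟩ := Nat.exists_eq_add_of_lt hij
      have e : β^[i * Q] ⁻¹' K ∩ β^[(i + r + 1) * Q] ⁻¹' K =
          β^[i * Q] ⁻¹' (K ∩ β^[(r + 1) * Q] ⁻¹' K) := by
        ext x
        simp only [mem_inter_iff, mem_preimage]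
        rw [show (i + r + 1) * Q = (r + 1) * Q + i * Q by ring, Function.iterate_add_apply]
      rw [e, (hβ.iterate _).measureReal_preimage
        (hK.inter ((hβ.iterate _).measurable hK)).nullMeasurableSet]
      exact (hcon _ (Nat.le_mul_of_pos_left _ (Nat.succ_pos r))
        (Nat.mul_le_mul_right _ (by omega))).le) J le_rfl
  have h1 := hb.trans (measureReal_le_one (μ := μ))
  rw [div_lt_iff₀ hp] at hJ
  have : (J : ℝ) * J * (1 / (J * J)) = 1 := by field_simp
  linarith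

/-- A measurable real function is bounded off a small set. -/
theorem exists_bound (ν : Measure X) [IsFiniteMeasure ν] {f : X → ℝ} (hf : Measurable f)
    {η : ℝ} (hη : 0 < η) : ∃ B : ℝ, 1 ≤ B ∧ ν.real {x | B < f x} ≤ η := by
  have h1 : Tendsto (fun n : ℕ => ν {x | (n : ℝ) + 1 < f x}) atTop
      (𝓝 (ν (⋂ n : ℕ, {x | (n : ℝ) + 1 < f x}))) :=
    tendsto_measure_iInter_atTop
      (fun n => (measurableSet_lt measurable_const hf).nullMeasurableSet)
      (fun i j hij x hx => by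
        have : (i : ℝ) ≤ j := Nat.cast_le.2 hij
        simp only [mem_ofPred_eq] at hx ⊢
        linarith) ⟨0, measure_ne_top _ _⟩
  have h2 : (⋂ n : ℕ, {x | (n : ℝ) + 1 < f x}) = ∅ := by
    refine eq_empty_of_forall_notMem fun x hx => ?_
    obtain ⟨n, hn⟩ := exists_nat_gt (f x)
    have := mem_iInter.1 hx n
    simp only [mem_ofPred_eq] at this
    linarith
  rw [h2, measure_empty] at h1
  obtain ⟨n, hn⟩ := (h1.eventually (gt_mem_nhds (ENNReal.ofReal_pos.2 hη))).exists
  refine ⟨n + 1, by linarith [Nat.cast_nonneg (α := ℝ) n], ?_⟩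
  exact ENNReal.toReal_le_of_le_ofReal hη.le hn.le

/-- A measurable function that is positive almost everywhere is bounded below off a small set. -/
theorem exists_lower (ν : Measure X) [IsFiniteMeasure ν] {f : X → ℝ} (hf : Measurable f)
    (h0 : ∀ᵐ x ∂ν, 0 < f x) {η : ℝ} (hη : 0 < η) :
    ∃ δ : ℝ, 0 < δ ∧ ν.real {x | f x < δ} ≤ η := by
  obtain ⟨B, hB, h⟩ := exists_bound ν hf.inv hη
  refine ⟨B⁻¹, by positivity, le_trans ?_ h⟩
  refine ENNReal.toReal_mono (measure_ne_top _ _) (measure_mono_ae ?_)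
  filter_upwards [h0] with x hx h1
  exact (lt_inv_comm₀ (by positivity) hx).2 h1

/-- Almost sure convergence of a sequence to a limit bounds it with high probability. -/
theorem eventually_near (ν : Measure X) [IsFiniteMeasure ν] {f : ℕ → X → ℝ}
    (hf : ∀ n, Measurable (f n)) {θ ε η : ℝ} (hε : 0 < ε) (hη : 0 < η)
    (h : ∀ᵐ x ∂ν, Tendsto (fun n => f n x) atTop (𝓝 θ)) :
    ∀ᶠ n in atTop, ν.real {x | ε ≤ |f n x - θ|} ≤ η := by
  have h1 := tendstoInMeasure_of_tendsto_ae (μ := ν) (f := f) (g := fun _ => θ)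
    (fun n => (hf n).aestronglyMeasurable) h
  have h2 := (tendstoInMeasure_iff_dist.1 h1) ε hε
  filter_upwards [h2.eventually (gt_mem_nhds (ENNReal.ofReal_pos.2 hη))] with n hn
  exact ENNReal.toReal_le_of_le_ofReal hη.le hn.le

/-- A conull set contains a conull set on which two almost inverse maps are inverse. -/
theorem exists_invariant {ν : Measure X} {T S : X → X} (hT : MeasurePreserving T ν ν)
    (hS : MeasurePreserving S ν ν) (h1 : ∀ᵐ x ∂ν, T (S x) = x) (h2 : ∀ᵐ x ∂ν, S (T x) = x)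
    {Y : Set X} (hY : ∀ᵐ x ∂ν, x ∈ Y) : ∃ Y' ⊆ Y, MeasurableSet Y' ∧ (∀ᵐ x ∂ν, x ∈ Y') ∧
      ∀ x ∈ Y', T x ∈ Y' ∧ S x ∈ Y' ∧ T (S x) = x ∧ S (T x) = x := by
  have h3 : ∀ᵐ x ∂ν, x ∈ Y ∧ T (S x) = x ∧ S (T x) = x := hY.and (h1.and h2)
  obtain ⟨N, hN, hm, h0⟩ := exists_measurable_superset_of_null (ae_iff.1 h3)
  have hc : ∀ x, x ∉ N → x ∈ Y ∧ T (S x) = x ∧ S (T x) = x := fun x hx => by
    by_contra h
    exact hx (hN h)
  have hae : ∀ᵐ x ∂ν, x ∉ N := measure_eq_zero_iff_ae_notMem.1 h0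
  refine ⟨{x | ∀ n, T^[n] x ∉ N ∧ S^[n] x ∉ N}, fun x hx => (hc x (hx 0).1).1, ?_, ?_, ?_⟩
  · have : {x | ∀ n, T^[n] x ∉ N ∧ S^[n] x ∉ N} = ⋂ n, (T^[n] ⁻¹' N)ᶜ ∩ (S^[n] ⁻¹' N)ᶜ := by
      ext x
      simp
    rw [this]
    exact .iInter fun n => ((hT.iterate n).measurable hm).compl.inter
      ((hS.iterate n).measurable hm).compl
  · exact ae_all_iff.2 fun n => ((hT.iterate n).quasiMeasurePreserving.ae hae).and
      ((hS.iterate n).quasiMeasurePreserving.ae hae)
  · intro x hx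
    obtain ⟨-, e1, e2⟩ := hc x (hx 0).1
    refine ⟨fun n => ⟨(hx (n + 1)).1, ?_⟩, fun n => ⟨?_, (hx (n + 1)).2⟩, e1, e2⟩
    · rcases n with _ | n
      · exact (hx 1).1
      · rw [Function.iterate_succ_apply, e2]
        exact (hx n).2
    · rcases n with _ | n
      · exact (hx 1).2
      · rw [Function.iterate_succ_apply, e1]
        exact (hx n).1

/-- Two measures that are proportional on each member of an increasing sequence of sets carrying
both are proportional. -/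
theorem eq_smul_of_restrict {m m' : Measure X} {U : ℕ → Set X} (hU : ∀ j, MeasurableSet (U j))
    (hmono : Monotone U) (hm : ∀ᵐ x ∂m, ∃ j, x ∈ U j) (hm' : ∀ᵐ x ∂m', ∃ j, x ∈ U j)
    (h0 : m (U 0) ≠ 0) (h1 : m (U 0) ≠ ∞)
    (h : ∀ j, ∃ c : ℝ≥0∞, m.restrict (U j) = c • m'.restrict (U j)) :
    ∃ c : ℝ≥0∞, c ≠ 0 ∧ c ≠ ∞ ∧ m = c • m' := by
  choose c hc using h
  have hv : ∀ j, m (U 0) = c j * m' (U 0) := fun j => by
    have := congrArg (fun ν : Measure X => ν (U 0)) (hc j)
    simpa [Measure.restrict_apply (hU 0), inter_eq_self_of_subset_left (hmono (Nat.zero_le j))]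
      using this
  have a0 : m' (U 0) ≠ 0 := fun h => h0 (by rw [hv 0, h, mul_zero])
  have c0 : c 0 ≠ 0 := fun h => h0 (by rw [hv 0, h, zero_mul])
  have a1 : m' (U 0) ≠ ∞ := fun h => h1 (by rw [hv 0, h, ENNReal.mul_top c0])
  have c1 : c 0 ≠ ∞ := fun h => h1 (by rw [hv 0, h, ENNReal.top_mul a0])
  have hcj : ∀ j, c j = c 0 := fun j =>
    (ENNReal.mul_left_inj a0 a1).1 ((hv j).symm.trans (hv 0))
  refine ⟨c 0, c0, c1, ?_⟩
  have hr : ∀ ν : Measure X, (∀ᵐ x ∂ν, ∃ j, x ∈ U j) → ∀ s, MeasurableSet s →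
      ν s = ⨆ j, ν.restrict (U j) s := fun ν hν s hs => by
    rw [← Measure.restrict_iUnion_apply_eq_iSup hmono.directed_le hs,
      Measure.restrict_eq_self_of_ae_mem (hν.mono fun x hx => mem_iUnion.2 hx)]
  refine Measure.ext fun s hs => ?_
  rw [hr m hm s hs, Measure.smul_apply, hr m' hm' s hs, smul_eq_mul, ENNReal.mul_iSup]
  refine iSup_congr fun j => ?_
  rw [hc j, hcj j, Measure.smul_apply, smul_eq_mul]

end Pool.Agent.P.MP_d483fb_an.Z.PS
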