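import Pool.Agent.P.MP_d483fb_an.Z.PS.Meas
import Pool.Agent.P.MP_d483fb_an.Z.Erg.Kac

/-!
From a product formula on one cell to a local formula for the leafwise measures, and from the
local formula to the global one by recurrence.
-/

namespace Pool.Agent.P.MP_d483fb_an.Z.PS

open MeasureTheory Filter Set Topology ProbabilityTheory
open scoped ENNReal

variable {X M : Type*} [MeasurableSpace X] [MeasurableSpace M]

theorem restrict_eq_of_ae {κ : Measure M} {U V : Set M} (hV : MeasurableSet V)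
    (h : ∀ᵐ x ∂κ, x ∈ V → x ∈ U) : (κ.restrict U).restrict V = κ.restrict V := by
  rw [Measure.restrict_restrict hV]
  refine Measure.restrict_congr_set ?_
  filter_upwards [h] with x hx
  exact propext ⟨fun h1 => h1.1, fun h1 => ⟨h1, hx h1⟩⟩

theorem restrict_map_eq {κ κ' : Measure X} {φ : X → M} (hφ : Measurable φ) {U : Set X}
    {V : Set M} (hV : MeasurableSet V) (h : ∀ᵐ x ∂κ, φ x ∈ V → x ∈ U)
    (h' : ∀ᵐ x ∂κ', φ x ∈ V → x ∈ U) {c : ℝ≥0∞} (e : κ.restrict U = c • κ'.restrict U) :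
    (κ.map φ).restrict V = c • (κ'.map φ).restrict V := by
  rw [Measure.restrict_map hφ hV, Measure.restrict_map hφ hV, ← restrict_eq_of_ae (hφ hV) h,
    ← restrict_eq_of_ae (hφ hV) h', e, Measure.restrict_smul, Measure.map_smul]

/-- Almost every orbit of an ergodic map visits a set of positive measure infinitely often. -/
theorem ae_frequently {μ : Measure X} [IsProbabilityMeasure μ] {S : X → X} (hS : Ergodic S μ)
    {E : Set X} (hE : MeasurableSet E) (h0 : μ E ≠ 0) : ∀ᵐ x ∂μ, ∃ᶠ k in atTop, S^[k] x ∈ E := by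
  filter_upwards [ae_visit_of_ergodic hS hE h0,
    hS.toMeasurePreserving.conservative.ae_forall_image_mem_imp_frequently_image_mem
      hE.nullMeasurableSet] with x h1 h2
  obtain ⟨k, hk⟩ := h1
  exact h2 k hk

/-- Two equivariant families of measures which are proportional on a small ball for the points
of a set of positive measure are proportional almost everywhere. -/
theorem spread {μ : Measure X} [IsProbabilityMeasure μ] {S : X → X} (hS : Ergodic S μ)
    {κ κ' : X → Measure M} {g : M → ℝ} (hg : Measurable g) {E : Set X} (hE : MeasurableSet E)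
    (h0 : μ E ≠ 0) {r : ℝ}
    (loc : ∀ᵐ x ∂μ, x ∈ E → ∃ c : ℝ≥0∞,
      (κ x).restrict {h | g h < r} = c • (κ' x).restrict {h | g h < r})
    (eqv : ∀ᵐ x ∂μ, ∀ R : ℝ, ∀ᶠ k in atTop, ∃ φ : M → M, Measurable φ ∧ ∃ c c' : ℝ≥0∞,
      c' ≠ 0 ∧ c' ≠ ∞ ∧ κ x = c • (κ (S^[k] x)).map φ ∧ κ' x = c' • (κ' (S^[k] x)).map φ ∧
      (∀ᵐ h ∂κ (S^[k] x), g (φ h) < R → g h < r) ∧ ∀ᵐ h ∂κ' (S^[k] x), g (φ h) < R → g h < r)
    (fin : ∀ᵐ x ∂μ, κ x {h | g h < 1} ≠ 0 ∧ κ x {h | g h < 1} ≠ ∞) :
    ∀ᵐ x ∂μ, ∃ c : ℝ≥0∞, c ≠ 0 ∧ c ≠ ∞ ∧ κ x = c • κ' x := by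
  have hU : ∀ R : ℝ, MeasurableSet {h | g h < R} := fun R => measurableSet_lt hg measurable_const
  filter_upwards [ae_frequently hS hE h0, eqv, fin, ae_all_iff.2 fun k =>
    (hS.toMeasurePreserving.iterate k).quasiMeasurePreserving.ae loc] with x h1 h2 h3 h4
  have hc : ∀ h, ∃ j : ℕ, h ∈ {h | g h < (j : ℝ) + 1} := fun h => by
    obtain ⟨j, hj⟩ := exists_nat_gt (g h)
    exact ⟨j, hj.trans (lt_add_one _)⟩
  refine eq_smul_of_restrict (U := fun j : ℕ => {h | g h < (j : ℝ) + 1}) (fun j => hU _)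
    (fun i j hij h hh => ?_) (Eventually.of_forall hc) (Eventually.of_forall hc)
    (by simpa using h3.1) (by simpa using h3.2) fun j => ?_
  · have : (i : ℝ) ≤ j := Nat.cast_le.2 hij
    exact lt_of_lt_of_le (show g h < (i : ℝ) + 1 from hh) (by linarith)
  obtain ⟨k, hk, φ, hφ, c, c', c0, c1, e1, e2, a1, a2⟩ := (h1.and_eventually (h2 (j + 1))).exists
  obtain ⟨c2, e3⟩ := h4 k hk
  refine ⟨c * c2 * c'⁻¹, ?_⟩
  rw [e1, e2, Measure.restrict_smul, Measure.restrict_smul,
    restrict_map_eq hφ (hU _) a1 a2 e3, smul_smul, smul_smul, mul_assoc _ c'⁻¹,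
    ENNReal.inv_mul_cancel c0 c1, mul_one]

variable [Monoid M] [MeasurableMul₂ M]

theorem mconv_map (o o' : Measure X) [SFinite o] [SFinite o'] {n n' : X → M} (hn : Measurable n)
    (hn' : Measurable n') :
    o.map n ∗ₘ o'.map n' = (o.prod o').map fun p => n p.1 * n' p.2 := by
  rw [Measure.mconv, Measure.map_prod_map _ _ hn hn', Measure.map_map measurable_mul (hn.prodMap hn')]
  rfl

/-- The product formula on a cell, moved to the chart of the base point. -/
theorem cell_product {oJ oS oC : Measure X} [SFinite oS] [SFinite oC] {cJ cS cC : Set X}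
    (mJ : MeasurableSet cJ) (mS : MeasurableSet cS) (mC : MeasurableSet cC)
    (fJ : oJ cJ ≠ ∞)
    {s al n : X → M} (hs : Measurable s) (hal : Measurable al)
    {φ ψ : M → M} (hφ : Measurable φ) (hψ : Measurable ψ)
    (eJ : ∀ y ∈ cJ, n y = ψ (al y) * φ (s y)) (eS : ∀ y ∈ cS, n y = ψ (al y))
    (eC : ∀ y ∈ cC, n y = φ (s y))
    (h : (oJ[|cJ]).map (fun y => (s y, al y)) = ((oC[|cC]).map s).prod ((oS[|cS]).map al)) :
    ∃ c : ℝ≥0∞, (oJ.restrict cJ).map n =
      c • ((oS.prod oC).restrict (cS ×ˢ cC)).map fun p => n p.1 * n p.2 := by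
  have hΘ : Measurable fun p : M × M => ψ p.2 * φ p.1 :=
    (hψ.comp measurable_snd).mul (hφ.comp measurable_fst)
  have h1 : (oJ[|cJ]).map n = ((oS[|cS]).prod (oC[|cC])).map fun p => n p.1 * n p.2 := by
    have a1 : (oJ[|cJ]).map n =
        ((oJ[|cJ]).map fun y => (s y, al y)).map fun p : M × M => ψ p.2 * φ p.1 := by
      rw [Measure.map_map hΘ (hs.prodMk hal)]
      exact Measure.map_congr ((ae_cond_mem mJ).mono eJ)
    rw [a1, h, Measure.map_prod_map _ _ hs hal, Measure.map_map hΘ (hs.prodMap hal),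
      ← Measure.prod_swap, Measure.map_map (hΘ.comp (hs.prodMap hal)) measurable_swap]
    refine Measure.map_congr ?_
    filter_upwards [Measure.quasiMeasurePreserving_fst.ae (ae_cond_mem (μ := oS) mS),
      Measure.quasiMeasurePreserving_snd.ae (ae_cond_mem (μ := oC) mC)] with p p1 p2
    simp [eS _ p1, eC _ p2]
  refine ⟨oJ cJ * ((oS cS)⁻¹ * (oC cC)⁻¹), ?_⟩
  have a2 : oJ.restrict cJ = oJ cJ • oJ[|cJ] := by
    by_cases h0 : oJ cJ = 0
    · rw [Measure.restrict_eq_zero.2 h0, h0, zero_smul]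
    · rw [ProbabilityTheory.cond, smul_smul, ENNReal.mul_inv_cancel h0 fJ, one_smul]
  rw [a2, Measure.map_smul, h1, ProbabilityTheory.cond, ProbabilityTheory.cond,
    Measure.prod_smul_left, Measure.prod_smul_right, Measure.prod_restrict, smul_smul,
    Measure.map_smul, smul_smul]

/-- The local product formula on a small ball. -/
theorem local_product {oJ oS oC : Measure X} [SFinite oS] [SFinite oC] {cJ cS cC : Set X}
    {n : X → M} (hn : Measurable n) {U : Set M} (hU : MeasurableSet U) {c : ℝ≥0∞}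
    (h : (oJ.restrict cJ).map n =
      c • ((oS.prod oC).restrict (cS ×ˢ cC)).map fun p => n p.1 * n p.2)
    (h1 : ∀ᵐ y ∂oJ, n y ∈ U → y ∈ cJ)
    (h2 : ∀ᵐ p ∂oS.prod oC, n p.1 * n p.2 ∈ U → p ∈ cS ×ˢ cC) :
    (oJ.map n).restrict U = c • (oS.map n ∗ₘ oC.map n).restrict U := by
  have hm : Measurable fun p : X × X => n p.1 * n p.2 :=
    (hn.comp measurable_fst).mul (hn.comp measurable_snd)
  rw [mconv_map _ _ hn hn, Measure.restrict_map hn hU, Measure.restrict_map hm hU,
    ← restrict_eq_of_ae (hn hU) h1, ← restrict_eq_of_ae (hm hU) h2, ← Measure.restrict_map hn hU,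
    ← Measure.restrict_map hm hU, h, Measure.restrict_smul]

end Pool.Agent.P.MP_d483fb_an.Z.PS
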