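import Pool.Agent.P.MP_d483fb_an.Z.PS.Inst
import Pool.Agent.P.MP_d483fb_an.Z.PS.Spread
import Pool.Agent.P.MP_d483fb_an.Z.LSB.LeafMtp
import Pool.Agent.P.MP_d483fb_an.Z.Loop.Defs

/-!
The product structure of leafwise measures for an extreme slope, given a rectangle partition.
-/

open scoped Matrix Matrix.Norms.Operator Topology ENNReal
open MeasureTheory Filter Set ProbabilityTheory

noncomputable section

namespace Pool.Agent.P.MP_d483fb_an.Z.PS

open Ent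

variable {X : Type} [MeasurableSpace X] {μ : Measure X} {ι : Type} [Fintype ι] [DecidableEq ι]
  {J J' : Set ℝ} {χ : ℝ} {K Y : Set X} {ζ : X → BoxLab X} {d : X → ℕ} {del : X → ℝ}

section equiv

variable {S : Pre X μ ι}

/-- Conjugation by an invertible matrix. -/
def conjH (L : Matrix ι ι ℝ) (h : IsUnit L.det) : Matrix ι ι ℝ →* Matrix ι ι ℝ where
  toFun m := L * m * L⁻¹
  map_one' := by rw [mul_one, Matrix.mul_nonsing_inv _ h]
  map_mul' a b := by
    simp only [mul_assoc]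
    rw [← mul_assoc L⁻¹ L, Matrix.nonsing_inv_mul _ h, one_mul]

theorem measurable_conjH (L : Matrix ι ι ℝ) (h : IsUnit L.det) : Measurable (conjH L h) :=
  (measurable_id.const_mul L).mul_const L⁻¹

instance (o : S.Leafwise J) (x : X) : SFinite (o.om x) :=
  have := o.lw.sfin
  inferInstance

instance (o : S.Leafwise J) (x : X) : SFinite (o.nu x) :=
  inferInstanceAs (SFinite ((o.om x).map (S.n x)))

theorem nu_nil (o : S.Leafwise J) {x : X} (hx : x ∈ o.X1) : ∀ᵐ h ∂o.nu x, S.w.Nil J h :=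
  (ae_map_iff (S.measurable_n_right x).aemeasurable (S.w.measurableSet_Nil J)).2
    ((o.lw.carried x hx).mono fun _ h => h.2.2)

theorem nu_equiv (o : S.Leafwise J) {x : X} (hx : x ∈ o.X1) (k : ℕ) : ∃ c : ℝ≥0∞, c ≠ 0 ∧ c ≠ ∞ ∧
    o.nu (S.aE^[k] x) = c • (o.nu x).map (conjH (S.La k x) (Pre.isUnit_La (o.sub1 hx) k)) := by
  obtain ⟨c, c0, c1, e⟩ := o.lw.equiv_iterate k hx
  refine ⟨c, c0, c1, ?_⟩
  rw [Pre.Leafwise.nu, Pre.Leafwise.nu, e, Measure.map_smul,
    Measure.map_map (S.measurable_n_right _) (S.aE.measurable.iterate k),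
    Measure.map_map (measurable_conjH _ _) (S.measurable_n_right _)]
  congr 1
  refine Measure.map_congr ((o.lw.carried x hx).mono fun y hy => ?_)
  simp only [Function.comp_apply, Pre.aE_iterate]
  exact Pre.n_a hy.2.1 k

end equiv

namespace BoxJ

variable [StandardBorelSpace X] [Nonempty X] [IsProbabilityMeasure μ]

section pre

variable {S : Pre X μ ι} (hB : BoxJ S J χ K ζ d del Y) (hJ : J.OrdConnected)
include hB hJ

omit [IsProbabilityMeasure μ] in
/-- The conditional measures on the fibres of a coordinate are leafwise measures. -/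
theorem cp_eq {W : Type} [MeasurableSpace W] [StandardBorelSpace W] {lab : X → W}
    (hl : Measurable lab) (hJ' : J' ⊆ J)
    (hc : ∀ x ∈ K, ∀ y ∈ K, lab y = lab x ↔ ζ x = ζ y ∧ S.RJ J' x y) (o : S.Leafwise J') :
    ∀ᵐ x ∂μ[|K], cp μ[|K] lab x = (o.om x)[|{y | y ∈ K ∧ lab y = lab x}] ∧
      o.om x {y | y ∈ K ∧ lab y = lab x} ≠ ∞ := by
  have h1 : ∀ x ∈ {x | x ∈ K → x ∈ Y}, x ∈ K → ∃ r, ∀ y ∈ {x | x ∈ K → x ∈ Y}, y ∈ K →
      lab y = lab x → S.N x y < r := fun x _ hx => ⟨_, fun y _ hy e =>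
    (hB.N_le hJ hx hy ((hc x hx y hy).1 e).1).trans_lt (lt_add_one _)⟩
  have h2 : ∀ x ∈ {x | x ∈ K → x ∈ Y}, x ∈ K → ∃ r, 0 < r ∧ ∀ y ∈ {x | x ∈ K → x ∈ Y},
      S.RJ J' x y → S.N x y < r → y ∈ K ∧ lab y = lab x := fun x hx hx' =>
    ⟨del x, (hB.inner x (hx hx')).1, fun y _ hR hN =>
      have h := (hB.inner x (hx hx')).2 y (hR.mono hJ') hN
      ⟨h.1, (hc x hx' y h.1).2 ⟨h.2.symm, hR⟩⟩⟩
  filter_upwards [o.lw.condDistrib_eq' hB.measK hl hB.aeY
    (fun x _ y _ hx hy e => ((hc x hx y hy).1 e.symm).2) h1 h2 μ[|K] rfl,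
    (cond_absolutelyContinuous (μ := μ) (s := K)).ae_le (o.lw.ae_class_pos hB.aeY h1 h2),
    ae_cond_mem hB.measK] with x a1 a2 a3
  exact ⟨a1, (a2 a3).2⟩

end pre

variable {S : LS X μ ι} (hB : BoxJ S.toPre J χ K ζ d del Y) (hJ : J.OrdConnected) (hm : χ ∈ J)
  (hχ : Wt.Extreme J χ) (o : S.toPre.Leafwise J) (o1 : S.toPre.Leafwise (J \ {χ}))
  (o2 : S.toPre.Leafwise {χ})
include hB hJ hm hχ

/-- The local product structure. -/
theorem local_ps : ∀ᵐ x ∂μ[|K], ∀ r, S.w.C ^ 2 * r ≤ del x → ∃ c : ℝ≥0∞,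
    (o.nu x).restrict {h | S.w.N h < r} = c • (o1.nu x ∗ₘ o2.nu x).restrict {h | S.w.N h < r} := by
  have ms := measurable_sC (S := S.toPre) (χ := χ) hB.measZeta
  have ma := measurable_aC (S := S.toPre) (χ := χ) hB.measZeta
  have hS : ∀ x ∈ K, ∀ y ∈ K, pr2 ζ (sC S.toPre χ ζ) y = pr2 ζ (sC S.toPre χ ζ) x ↔
      ζ x = ζ y ∧ S.toPre.RJ (J \ {χ}) x y := fun x hx y hy =>
    ⟨fun e => ⟨(congrArg Prod.fst e).symm, (hB.sC_iff hJ hχ hx hy (congrArg Prod.fst e).symm).1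
      (congrArg Prod.snd e).symm⟩, fun e => Prod.ext e.1.symm ((hB.sC_iff hJ hχ hx hy e.1).2 e.2).symm⟩
  have hA : ∀ x ∈ K, ∀ y ∈ K, pr2 ζ (aC S.toPre χ ζ) y = pr2 ζ (aC S.toPre χ ζ) x ↔
      ζ x = ζ y ∧ S.toPre.RJ {χ} x y := fun x hx y hy =>
    ⟨fun e => ⟨(congrArg Prod.fst e).symm, (hB.aC_iff hχ hx hy (congrArg Prod.fst e).symm).1
      (congrArg Prod.snd e).symm⟩, fun e => Prod.ext e.1.symm ((hB.aC_iff hχ hx hy e.1).2 e.2).symm⟩
  have ac := (cond_absolutelyContinuous (μ := μ) (s := K)).ae_le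
  filter_upwards [hB.cp_prod hJ hχ, hB.aeY',
    hB.cp_eq hJ hB.measZeta Subset.rfl (fun x hx y hy =>
      ⟨fun e => ⟨e.symm, hB.rel hJ hx hy e.symm⟩, fun e => e.1.symm⟩) o,
    hB.cp_eq hJ (hB.measZeta.prodMk ms) sdiff_subset hS o1,
    hB.cp_eq hJ (hB.measZeta.prodMk ma) (singleton_subset_iff.2 hm) hA o2,
    ac o.lw.conull, ac o1.lw.conull, ac o2.lw.conull] with x h0 hx a a1 a2 x0 x1 x2 r hr
  have hK := hB.subK hx
  have mcl : ∀ {W : Type} [MeasurableSpace W] [StandardBorelSpace W] {lab : X → W},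
      Measurable lab → MeasurableSet {y | y ∈ K ∧ lab y = lab x} := fun hl =>
    hB.measK.inter (hl (measurableSet_singleton _))
  have hz := hB.refx hK
  have hn := S.toPre.measurable_n_right x
  have e0 : ∀ y ∈ K, ζ x = ζ y → S.toPre.n x y = S.toPre.l x (ζ x).1 *
      ((S.toPre.n (ζ x).1 x)⁻¹ * (aC S.toPre χ ζ y * sC S.toPre χ ζ y)) * S.toPre.l (ζ x).1 x :=
    fun y hy e => by
      rw [aC, sC, (hB.refx hy).2.al_mul_pr, ← e]
      exact Pre.n_eq_conj hz.1 (hB.rel hJ hK hy e).1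
  have h0' : ((o.om x)[|{y | y ∈ K ∧ ζ y = ζ x}]).map
      (fun y => (sC S.toPre χ ζ y, aC S.toPre χ ζ y)) = (((o2.om x)[|{y | y ∈ K ∧
        pr2 ζ (aC S.toPre χ ζ) y = pr2 ζ (aC S.toPre χ ζ) x}]).map (sC S.toPre χ ζ)).prod
      (((o1.om x)[|{y | y ∈ K ∧ pr2 ζ (sC S.toPre χ ζ) y = pr2 ζ (sC S.toPre χ ζ) x}]).map
        (aC S.toPre χ ζ)) := by
    rw [← a.1]
    exact h0.trans (congrArg₂ (fun m m' : Measure X =>
      (m.map (sC S.toPre χ ζ)).prod (m'.map (aC S.toPre χ ζ))) a2.1 a1.1)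
  obtain ⟨c, hc⟩ := cell_product (n := S.toPre.n x) (mcl hB.measZeta) (mcl (hB.measZeta.prodMk ms))
    (mcl (hB.measZeta.prodMk ma)) a.2 ms ma
    (φ := fun m => S.toPre.l x (ζ x).1 * ((sC S.toPre χ ζ x)⁻¹ * m) * S.toPre.l (ζ x).1 x)
    (ψ := fun m => S.toPre.l x (ζ x).1 * ((S.toPre.n (ζ x).1 x)⁻¹ * (m * sC S.toPre χ ζ x)) *
      S.toPre.l (ζ x).1 x)
    (((measurable_id.const_mul _).const_mul _).mul_const _)
    ((((measurable_id.mul_const _).const_mul _).const_mul _).mul_const _)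
    (fun y hy => by
      rw [e0 y hy.1 hy.2.symm]
      simp only [mul_assoc]
      rw [← mul_assoc (S.toPre.l (ζ x).1 x) (S.toPre.l x (ζ x).1), Pre.l_mul_symm hz.1, one_mul,
        ← mul_assoc (sC S.toPre χ ζ x) _⁻¹, (hB.nil_sC hK).mul_inv, one_mul])
    (fun y hy => by
      rw [e0 y hy.1 (congrArg Prod.fst hy.2).symm,
        show sC S.toPre χ ζ y = sC S.toPre χ ζ x from congrArg Prod.snd hy.2])
    (fun y hy => by
      rw [e0 y hy.1 (congrArg Prod.fst hy.2).symm,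
        show aC S.toPre χ ζ y = aC S.toPre χ ζ x from congrArg Prod.snd hy.2,
        show aC S.toPre χ ζ x = S.toPre.n (ζ x).1 x * (sC S.toPre χ ζ x)⁻¹ from rfl, mul_assoc
          (S.toPre.n (ζ x).1 x), ← mul_assoc _⁻¹ (S.toPre.n (ζ x).1 x), hz.2.inv_mul, one_mul]) h0'
  have hC2 : 1 ≤ S.w.C ^ 2 := one_le_pow₀ S.w.one_le_C
  have hin : ∀ y, S.toPre.RJ J x y → ∀ u, 0 ≤ u → u < r → S.toPre.N x y ≤ S.w.C ^ 2 * u →
      y ∈ K ∧ ζ y = ζ x := fun y hR u _ hu h => (hB.inner x hx).2 y hR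
    (h.trans_lt ((mul_lt_mul_of_pos_left hu (by linarith)).trans_le hr))
  have hle : ∀ u : ℝ, 0 ≤ u → u ≤ S.w.C ^ 2 * u := fun u hu => le_mul_of_one_le_left hu hC2
  refine ⟨c, local_product hn (measurableSet_lt S.w.measurable_N measurable_const) hc ?_ ?_⟩
  · filter_upwards [o.lw.carried x x0] with y hy h
    exact hin y hy.2 _ (S.toPre.N_nonneg x y) h (hle _ (S.toPre.N_nonneg x y))
  · filter_upwards [Measure.quasiMeasurePreserving_fst.ae (o1.lw.carried x x1),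
      Measure.quasiMeasurePreserving_snd.ae (o2.lw.carried x x2)] with p p1 p2 h
    have n1 := p1.2.2
    have n2 := p2.2.2
    have n3 := (n1.mono sdiff_subset).mul hJ (n2.mono (singleton_subset_iff.2 hm))
    have k1 := n3.N_al_le (χ := χ)
    have k2 : S.w.N (S.w.pr χ (S.toPre.n x p.1 * S.toPre.n x p.2)) ≤ _ := Wt.N_pr_le _
    rw [Wt.al_mul_eq hχ n1 n2] at k1
    rw [Wt.pr_mul_eq hχ n1 n2] at k2
    have b1 := hin p.1 (p1.2.mono sdiff_subset) _ (S.w.N_nonneg _) h k1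
    have b2 := hin p.2 (p2.2.mono (singleton_subset_iff.2 hm)) _ (S.w.N_nonneg _) h
      (k2.trans (hle _ (S.w.N_nonneg _)))
    exact ⟨⟨b1.1, (hS x hK _ b1.1).2 ⟨b1.2.symm, p1.2⟩⟩, b2.1, (hA x hK _ b2.1).2 ⟨b2.2.symm, p2.2⟩⟩

/-- The global product structure. -/
theorem ps : ∀ᵐ x ∂μ, ∃ c : ℝ≥0∞, c ≠ 0 ∧ c ≠ ∞ ∧ o.nu x = c • (o1.nu x ∗ₘ o2.nu x) := by
  have := cond_isProbabilityMeasure (μ := μ) hB.posK
  obtain ⟨δ, hδ, h1⟩ := exists_lower μ[|K] hB.measDel
    (hB.aeY'.mono fun x hx => (hB.inner x hx).1) (η := 1 / 2) (by norm_num)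
  have hE : MeasurableSet {x | δ ≤ del x} := measurableSet_le measurable_const hB.measDel
  have h2 : μ (K ∩ {x | δ ≤ del x}) ≠ 0 := fun h => by
    have h3 : μ[|K] {x | δ ≤ del x} = 0 := by rw [cond_apply hB.measK, h, mul_zero]
    have h4 := probReal_compl_eq_one_sub (μ := μ[|K]) hE
    rw [measureReal_def _ {x | δ ≤ del x}, h3, compl_ofPred] at h4
    simp only [not_le] at h4
    norm_num [h4] at h1
  have hC2 : 0 < S.w.C ^ 2 := pow_pos S.w.C_pos 2
  obtain ⟨q, -, -, hq⟩ := exists_scale S (ε := 1 / 2) (κ := 1) (by norm_num) one_pos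
  refine spread S.toPre.ergodic_aE.symm S.w.measurable_N (hB.measK.inter hE) h2
    (r := δ / S.w.C ^ 2) ?_ ?_ ?_
  · have h3 := hB.local_ps hJ hm hχ o o1 o2
    rw [ProbabilityTheory.cond, Measure.ae_ennreal_smul_measure_iff
      (ENNReal.inv_ne_zero.2 (measure_ne_top _ _)), ae_restrict_iff' hB.measK] at h3
    filter_upwards [h3] with x hx h
    exact hx h.1 _ (by rw [mul_div_cancel₀ _ hC2.ne']; exact h.2)
  · filter_upwards [o.lw.conull, o1.lw.conull, o2.lw.conull] with x x0 x1 x2 R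
    have hu : Tendsto (fun n : ℕ => (n : ℝ) / 2) atTop atTop :=
      tendsto_natCast_atTop_atTop.atTop_div_const (by norm_num)
    filter_upwards [eventually_mul_exp_lt (|q x| * |R|) (div_pos hδ hC2) hu] with k hk
    have y0 := (o.lw.symm.iterate_mem k x).2 x0
    have y1 := (o1.lw.symm.iterate_mem k x).2 x1
    have y2 := (o2.lw.symm.iterate_mem k x).2 x2
    have ey : S.toPre.aE^[k] (S.toPre.aE.symm^[k] x) = x :=
      (Function.LeftInverse.iterate S.toPre.aE.apply_symm_apply k) x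
    generalize S.toPre.aE.symm^[k] x = y at y0 y1 y2 ey
    obtain ⟨c, -, -, e⟩ := nu_equiv o y0 k
    obtain ⟨c1, a1, b1, e1⟩ := nu_equiv o1 y1 k
    obtain ⟨c2, a2, b2, e2⟩ := nu_equiv o2 y2 k
    rw [ey] at e e1 e2
    have hy := o.sub1 y0
    have key : ∀ h, S.w.Nil J h → S.w.N (conjH _ (Pre.isUnit_La hy k) h) < R →
        S.w.N h < δ / S.w.C ^ 2 := fun h hh hR => by
      have ex : S.f (((k : ℤ) : ℝ), 0) y = x := by rw [← ey, Pre.aE_iterate]; rfl
      have u := Pre.isUnit_La hy k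
      have h3 := hq x (o.sub1 x0) J _ (hh.conj_inv (Pre.La_lev hy k) u) (-(((k : ℤ) : ℝ), 0)) (-k) k
        (fun σ _ => by simp) (by simp)
      rw [← ex, ← Pre.L_inv hy, Matrix.nonsing_inv_nonsing_inv _ (Pre.isUnit_L hy _), ex] at h3
      have h4 : (S.L (((k : ℤ) : ℝ), 0) y)⁻¹ * (S.toPre.La k y * h * (S.toPre.La k y)⁻¹) *
          S.L (((k : ℤ) : ℝ), 0) y = h := by
        change (S.toPre.La k y)⁻¹ * _ * S.toPre.La k y = h
        rw [← mul_assoc, ← mul_assoc, Matrix.nonsing_inv_mul _ u, one_mul, mul_assoc,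
          Matrix.nonsing_inv_mul _ u, mul_one]
      rw [h4] at h3
      refine h3.trans_lt (lt_of_le_of_lt ?_ hk)
      rw [mul_right_comm, show -(k : ℝ) + 1 / 2 * k = -(k / 2) by ring]
      exact mul_le_mul_of_nonneg_right (mul_le_mul (le_abs_self _) (hR.le.trans (le_abs_self _))
        (S.w.N_nonneg _) (abs_nonneg _)) (Real.exp_pos _).le
    refine ⟨_, measurable_conjH _ (Pre.isUnit_La hy k), c, c1 * c2, mul_ne_zero a1 a2,
      ENNReal.mul_ne_top b1 b2, e, ?_, (nu_nil o y0).mono key, ?_⟩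
    · rw [e1, e2, Measure.mconv_smul_left, Measure.mconv_smul_right, smul_smul,
        Measure.map_mconv_monoidHom _ (measurable_conjH _ _)]
    · refine Eventually.mono ((ae_map_iff measurable_mul.aemeasurable
        (S.w.measurableSet_Nil J)).2 ?_) key
      filter_upwards [Measure.quasiMeasurePreserving_fst.ae (nu_nil o1 y1),
        Measure.quasiMeasurePreserving_snd.ae (nu_nil o2 y2)] with p p1 p2
      exact (p1.mono sdiff_subset).mul hJ (p2.mono (singleton_subset_iff.2 hm))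
  · filter_upwards [o.lw.conull] with x x0
    rw [Pre.Leafwise.nu, Measure.map_apply (S.toPre.measurable_n_right x)
      (measurableSet_lt S.w.measurable_N measurable_const)]
    have := o.lw.norm x x0
    exact ⟨fun h => one_ne_zero (this.symm.trans h), fun h => ENNReal.one_ne_top (this.symm.trans h)⟩

end BoxJ

/-- The product structure follows from the existence of rectangle partitions. -/
theorem hasPS_of_box [StandardBorelSpace X] [IsProbabilityMeasure μ] (S : LS X μ ι)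
    (h : ∀ (J : Set ℝ) (χ : ℝ), J.OrdConnected → Wt.Extreme J χ →
      ∃ K ζ d del Y, BoxJ S.toPre J χ K ζ d del Y) : S.toPre.HasPS := by
  intro J χ hJ hm hχ o o1 o2
  have : Nonempty X := nonempty_of_isProbabilityMeasure μ
  obtain ⟨K, ζ, d, del, Y, hB⟩ := h J χ hJ hχ
  exact hB.ps hJ hm hχ o o1 o2

end Pool.Agent.P.MP_d483fb_an.Z.PS
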