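import Pool.Agent.P.MP_d483fb_an.Z.PS.Meas

/-!
Abstract data for the rate inequality between the three conditional entropies, and the geometric
estimates on pairs of points with the same labels.
-/

namespace Pool.Agent.P.MP_d483fb_an.Z.PS

open MeasureTheory Filter Set Topology ProbabilityTheory
open scoped ENNReal

/-- A return map `T` to `K` with an increasing label `ζ` and digit `d`, a relation with three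
gauges, a second measure preserving map `β`, and cells at every scale. -/
structure Rate {X Z D : Type} [MeasurableSpace X] (μ : Measure X) (K : Set X) (T Ti : X → X)
    (ζ : X → Z) (d : X → D) where
  Y : Set X
  R : X → X → Prop
  N : X → X → ℝ
  Nc : X → X → ℝ
  Ns : X → X → ℝ
  t : ℕ → X → ℝ
  θ : ℝ
  β : X → X
  Xb : Set X
  c : ℝ
  sig : ℝ → X → ℕ
  C0 : ℕ
  mK : MeasurableSet K
  K0 : μ K ≠ 0
  mY : MeasurableSet Y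
  aeY : ∀ᵐ x ∂μ[|K], x ∈ Y
  inv : ∀ x ∈ Y, T x ∈ Y ∧ Ti x ∈ Y ∧ T (Ti x) = x ∧ Ti (T x) = x
  pT : MeasurePreserving T μ[|K] μ[|K]
  pTi : MeasurePreserving Ti μ[|K] μ[|K]
  pβ : MeasurePreserving β μ μ
  mXb : MeasurableSet Xb
  aeXb : ∀ᵐ x ∂μ, x ∈ Xb
  incr : ∀ x ∈ Y, ∀ y ∈ Y, ζ (T x) = ζ (T y) ↔ ζ x = ζ y ∧ d x = d y
  N0 : ∀ x y, 0 ≤ N x y
  Nc0 : ∀ x y, 0 ≤ Nc x y
  Ns0 : ∀ x y, 0 ≤ Ns x y
  mt : ∀ k, Measurable (t k)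
  tge : ∀ x ∈ Y, ∀ k : ℕ, (k : ℝ) ≤ t k x
  tmono : ∀ x ∈ Y, Monotone fun k => t k x
  lln : ∀ᵐ x ∂μ[|K], Tendsto (fun n : ℕ => t n x / n) atTop (𝓝 θ)
  θ0 : 0 < θ
  c0 : 0 < c
  msig : ∀ r, Measurable (sig r)

variable {X Z D W V : Type} [MeasurableSpace X] {μ : Measure X} {K : Set X} {T Ti : X → X}
  {ζ : X → Z} {d : X → D}

namespace Rate

/-- The function `F` controls all the distortions, up to the exponential rate `ε`. -/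
structure Ctl [PseudoMetricSpace W] [PseudoMetricSpace V] (ρ : Rate μ K T Ti ζ d) (s : X → W)
    (al : X → V) (ε : ℝ) (F : X → ℝ) : Prop where
  meas : Measurable F
  one : ∀ x, 1 ≤ F x
  sa : ∀ x ∈ ρ.Y, ∀ y ∈ ρ.Y, ∀ k, (∀ i < k, d (T^[i] x) = d (T^[i] y)) →
    (ρ.R (T^[k] x) (T^[k] y) → ρ.R x y) ∧ (ρ.R x y →
      ρ.Nc (T^[k] x) (T^[k] y) ≤ F x * Real.exp ((1 + ε) * ρ.t k x) * ρ.Nc x y ∧
      ρ.Ns (T^[k] x) (T^[k] y) ≤ F x * Real.exp ((1 + ε) * ρ.t k x) * ρ.Ns x y ∧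
      ρ.N x y ≤ F (T^[k] x) * Real.exp (-(1 - ε) * ρ.t k x) * ρ.N (T^[k] x) (T^[k] y))
  sb : ∀ x ∈ ρ.Xb, ∀ y ∈ ρ.Xb, ∀ m : ℕ, ρ.R (ρ.β^[m] x) (ρ.β^[m] y) → ρ.R x y ∧
    ρ.N x y ≤ F (ρ.β^[m] x) * Real.exp (ε * m) * ρ.N (ρ.β^[m] x) (ρ.β^[m] y) ∧
    ρ.Ns x y ≤ F (ρ.β^[m] x) * Real.exp ((ε - ρ.c) * m) * ρ.N (ρ.β^[m] x) (ρ.β^[m] y) ∧
    ρ.Nc (ρ.β^[m] x) (ρ.β^[m] y) ≤ F x * Real.exp (ε * m) * ρ.N x y
  atom : ∀ x ∈ ρ.Y, ∀ y ∈ ρ.Y, ζ x = ζ y → ρ.R x y ∧ ρ.N x y ≤ F x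
  inner : ∀ x ∈ ρ.Y, ∀ y ∈ ρ.Y, ρ.R x y → F x * ρ.N x y < 1 → ζ x = ζ y
  cellA : ∀ r > 0, ∀ x ∈ ρ.Y, ∀ y ∈ ρ.Y, ζ x = ζ y → ρ.sig r x = ρ.sig r y → ρ.Nc x y ≤ F x * r
  cellB : ∀ r > 0, ∀ x ∈ ρ.Y,
    (ρ.sig r '' {y | y ∈ ρ.Y ∧ ζ x = ζ y ∧ F x * ρ.Nc x y ≤ r}).encard ≤ ρ.C0
  modS : ∀ δ > 0, ∀ B : ℝ, ∃ r > 0, ∀ x ∈ ρ.Y, ∀ y ∈ ρ.Y, ζ x = ζ y → F x ≤ B → ρ.Nc x y ≤ r →
    dist (s x) (s y) ≤ δ
  modA : ∀ δ > 0, ∀ B : ℝ, ∃ r > 0, ∀ x ∈ ρ.Y, ∀ y ∈ ρ.Y, ζ x = ζ y → F x ≤ B → ρ.Ns x y ≤ r →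
    dist (al x) (al y) ≤ δ

variable (ρ : Rate μ K T Ti ζ d)

theorem T_mem {x : X} (hx : x ∈ ρ.Y) (k : ℕ) : T^[k] x ∈ ρ.Y := by
  induction k with
  | zero => exact hx
  | succ k ih => rw [Function.iterate_succ_apply']; exact (ρ.inv _ ih).1

theorem Ti_mem {x : X} (hx : x ∈ ρ.Y) (k : ℕ) : Ti^[k] x ∈ ρ.Y := by
  induction k with
  | zero => exact hx
  | succ k ih => rw [Function.iterate_succ_apply']; exact (ρ.inv _ ih).2.1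

theorem T_Ti {x : X} (hx : x ∈ ρ.Y) (k : ℕ) : T^[k] (Ti^[k] x) = x := by
  induction k with
  | zero => rfl
  | succ k ih =>
    rw [Function.iterate_succ_apply, Function.iterate_succ_apply',
      (ρ.inv _ (ρ.Ti_mem hx k)).2.2.1, ih]

theorem zeta_iter {x y : X} (hx : x ∈ ρ.Y) (hy : y ∈ ρ.Y) (k : ℕ) :
    ζ (T^[k] x) = ζ (T^[k] y) ↔ ζ x = ζ y ∧ ∀ i < k, d (T^[i] x) = d (T^[i] y) := by
  induction k with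
  | zero => simp
  | succ k ih =>
    rw [Function.iterate_succ_apply', Function.iterate_succ_apply',
      ρ.incr _ (ρ.T_mem hx k) _ (ρ.T_mem hy k), ih]
    refine ⟨fun h => ⟨h.1.1, fun i hi => ?_⟩, fun h => ⟨⟨h.1, fun i hi => h.2 i (by omega)⟩,
      h.2 k (by omega)⟩⟩
    rcases Nat.lt_succ_iff_lt_or_eq.1 hi with h1 | rfl
    exacts [h.1.2 i h1, h.2]

variable {ρ} [PseudoMetricSpace W] [PseudoMetricSpace V] {s : X → W} {al : X → V} {ε : ℝ}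
  {F : X → ℝ}

theorem mul3_le {a b c a' b' c' : ℝ} (ha : a ≤ a') (hb : b ≤ b') (hc : c ≤ c') (h0 : 0 ≤ a')
    (h2 : 0 ≤ c) : a * Real.exp b * c ≤ a' * Real.exp b' * c' := by
  have h1 := Real.exp_le_exp.2 hb
  have h3 := Real.exp_pos b
  exact mul_le_mul (mul_le_mul ha h1 h3.le h0) hc h2 (by positivity)

/-- Same cell and same names: the first gauge is small at time `k`. -/
theorem Ctl.estA (h : ρ.Ctl s al ε F) (hε : 0 ≤ ε) {x y : X} (hx : x ∈ ρ.Y) (hy : y ∈ ρ.Y)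
    {k : ℕ} {B u r : ℝ} (hr : 0 < r) (hz : ζ x = ζ y) (hs : ρ.sig r x = ρ.sig r y)
    (hd : ∀ i < k, d (T^[i] x) = d (T^[i] y)) (hF : F x ≤ B) (ht : ρ.t k x ≤ u) :
    ρ.Nc (T^[k] x) (T^[k] y) ≤ B * Real.exp ((1 + ε) * u) * (B * r) :=
  ((h.sa x hx y hy k hd).2 (h.atom x hx y hy hz).1).1.trans
    (mul3_le hF (by nlinarith) ((h.cellA r hr x hx y hy hz hs).trans (by nlinarith))
      (by linarith [h.one x]) (ρ.Nc0 _ _))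

/-- Same label after `β^[M]` and same past digits: same label, and the second gauge is small. -/
theorem Ctl.estB (h : ρ.Ctl s al ε F) (hε : ε ≤ 1 / 2) {x y : X} (hx : x ∈ ρ.Y) (hy : y ∈ ρ.Y)
    (hxb : x ∈ ρ.Xb) (hyb : y ∈ ρ.Xb) {M m : ℕ} {B : ℝ} (hx' : ρ.β^[M] x ∈ ρ.Y)
    (hy' : ρ.β^[M] y ∈ ρ.Y) (hz : ζ (ρ.β^[M] x) = ζ (ρ.β^[M] y))
    (hd : ∀ i < m, d (T^[i] (Ti^[m] x)) = d (T^[i] (Ti^[m] y))) (h1 : F x ≤ B)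
    (h2 : F (ρ.β^[M] x) ≤ B) (h3 : F (Ti^[m] x) ≤ B)
    (hsmall : B * (B * Real.exp (-(m / 2)) * (B * Real.exp (ε * M) * B)) < 1) :
    ζ x = ζ y ∧ ρ.Ns x y ≤ B * Real.exp ((ε - ρ.c) * M) * B := by
  have hB : 0 ≤ B := by linarith [h.one x]
  obtain ⟨hR, hN⟩ := h.atom _ hx' _ hy' hz
  obtain ⟨hR1, b1, b2, -⟩ := h.sb x hxb y hyb M hR
  refine ⟨?_, b2.trans (mul3_le h2 le_rfl (hN.trans h2) hB (ρ.N0 _ _))⟩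
  have b3 : ρ.N x y ≤ B * Real.exp (ε * M) * B :=
    b1.trans (mul3_le h2 le_rfl (hN.trans h2) hB (ρ.N0 _ _))
  have hx0 := ρ.Ti_mem hx m
  have hy0 := ρ.Ti_mem hy m
  obtain ⟨a1, a2⟩ := h.sa _ hx0 _ hy0 m hd
  rw [ρ.T_Ti hx, ρ.T_Ti hy] at a1 a2
  have a3 := (a2 (a1 hR1)).2.2
  have a4 := ρ.tge _ hx0 m
  have a5 : (0 : ℝ) ≤ m := Nat.cast_nonneg m
  have a6 := a3.trans (mul3_le (b' := -(m / 2)) h1 (by nlinarith) b3 hB (ρ.N0 _ _))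
  have a7 := h.inner _ hx0 _ hy0 (a1 hR1)
    ((mul_le_mul h3 a6 (ρ.N0 _ _) hB).trans_lt hsmall)
  have a8 := (ρ.zeta_iter hx0 hy0 m).2 ⟨a7, hd⟩
  rwa [ρ.T_Ti hx, ρ.T_Ti hy] at a8

/-- Same label and same names: the second gauge at time `k`. -/
theorem Ctl.estB' (h : ρ.Ctl s al ε F) (hε : 0 ≤ ε) {x y : X} (hx : x ∈ ρ.Y) (hy : y ∈ ρ.Y)
    {k : ℕ} {B u v : ℝ} (hz : ζ x = ζ y) (hd : ∀ i < k, d (T^[i] x) = d (T^[i] y))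
    (hF : F x ≤ B) (ht : ρ.t k x ≤ u) (hv : ρ.Ns x y ≤ v) :
    ρ.Ns (T^[k] x) (T^[k] y) ≤ B * Real.exp ((1 + ε) * u) * v :=
  ((h.sa x hx y hy k hd).2 (h.atom x hx y hy hz).1).2.1.trans
    (mul3_le hF (by nlinarith) hv (by linarith [h.one x]) (ρ.Ns0 _ _))

/-- Same label and same names up to `n`: the first gauge is small after `β^[M]`. -/
theorem Ctl.estC (h : ρ.Ctl s al ε F) (hε : ε ≤ 1) {x y : X} (hx : x ∈ ρ.Y) (hy : y ∈ ρ.Y)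
    (hxb : x ∈ ρ.Xb) (hyb : y ∈ ρ.Xb) {M n : ℕ} {B u : ℝ} (hx' : ρ.β^[M] x ∈ ρ.Y)
    (hy' : ρ.β^[M] y ∈ ρ.Y) (hz' : ζ (ρ.β^[M] x) = ζ (ρ.β^[M] y)) (hz : ζ x = ζ y)
    (hd : ∀ i < n, d (T^[i] x) = d (T^[i] y)) (h1 : F x ≤ B) (h2 : F (ρ.β^[M] x) ≤ B)
    (h3 : F (T^[n] x) ≤ B) (ht : u ≤ ρ.t n x) :
    F (ρ.β^[M] x) * ρ.Nc (ρ.β^[M] x) (ρ.β^[M] y) ≤
      B * (B * Real.exp (ε * M) * (B * Real.exp (-(1 - ε) * u) * B)) := by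
  have hB : 0 ≤ B := by linarith [h.one x]
  have b1 := (h.sb x hxb y hyb M (h.atom _ hx' _ hy' hz').1).2.2.2
  have a1 := ((h.sa x hx y hy n hd).2 (h.atom x hx y hy hz).1).2.2
  have a2 := (h.atom _ (ρ.T_mem hx n) _ (ρ.T_mem hy n) ((ρ.zeta_iter hx hy n).2 ⟨hz, hd⟩)).2
  have a3 := a1.trans (mul3_le (b' := -(1 - ε) * u) h3 (by nlinarith) (a2.trans h3) hB
    (ρ.N0 _ _))
  exact mul_le_mul h2 (b1.trans (mul3_le h1 le_rfl a3 hB (ρ.N0 _ _))) (ρ.Nc0 _ _) hB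

end Rate

end Pool.Agent.P.MP_d483fb_an.Z.PS
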